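import Pool.Agent.K9h16.TG.Imp

/-!
The arithmetic of the exponents.
-/

set_option autoImplicit false

namespace Pool.Agent.K9h16.LD

open Finset Pool.Agent.W816.HI.AT

section

variable {s : ℕ} (n : Fin s → ℕ)

/-- the exponent `∑ (N / n_t) j_t a_t` -/
def EE (j a : Fin s → ℕ) : ℕ := ∑ t, (∏ t, n t) / n t * (j t * a t)

variable {n}

lemma pos_N (hn : ∀ t, 2 ≤ n t) : 0 < ∏ t, n t := prod_pos fun t _ => by have := hn t; omega

lemma div_mul (hn : ∀ t, 2 ≤ n t) (t : Fin s) : (∏ t, n t) / n t * n t = ∏ t, n t :=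
  Nat.div_mul_cancel (dvd_prod_of_mem n (mem_univ t))

lemma div_pos (hn : ∀ t, 2 ≤ n t) (t : Fin s) : 0 < (∏ t, n t) / n t := by
  have h1 := div_mul hn t
  have h2 := pos_N hn
  rcases Nat.eq_zero_or_pos ((∏ t, n t) / n t) with h | h
  · rw [h, zero_mul] at h1
    omega
  · exact h

lemma div_eq (hn : ∀ t, 2 ≤ n t) (t : Fin s) : (∏ t, n t) / n t = ∏ t' ∈ univ.erase t, n t' := by
  rw [← mul_prod_erase univ n (mem_univ t)]
  exact Nat.mul_div_cancel_left _ (by have := hn t; omega)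

/-- a number divisible by `N` -/
lemma EE_zero (hn : ∀ t, 2 ≤ n t) (hco : Pairwise (Function.onFun Nat.Coprime n))
    (j a : Fin s → ℕ) (hj : ∀ t, j t < n t) (ha : ∀ t, a t = 0 ∨ (a t).Coprime (n t))
    (h : EE n j a ≠ 0) : ¬ (∏ t, n t) ∣ EE n j a := by
  intro hd
  apply h
  unfold EE
  refine sum_eq_zero fun t _ => ?_
  have h1 : n t ∣ EE n j a := (dvd_prod_of_mem n (mem_univ t)).trans hd
  unfold EE at h1
  rw [← add_sum_erase univ _ (mem_univ t)] at h1
  have h2 : n t ∣ ∑ t' ∈ univ.erase t, (∏ t, n t) / n t' * (j t' * a t') := by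
    refine dvd_sum fun t' ht' => Dvd.dvd.mul_right ?_ _
    rw [div_eq hn]
    exact dvd_prod_of_mem n (mem_erase.mpr ⟨(mem_erase.mp ht').1.symm, mem_univ _⟩)
  have h3 := (Nat.dvd_add_left h2).mp h1
  have h4 : (n t).Coprime ((∏ t, n t) / n t) := by
    rw [div_eq hn]
    exact Nat.Coprime.prod_right fun t' ht' => hco (mem_erase.mp ht').1.symm
  have h5 := h4.dvd_of_dvd_mul_left h3
  rcases ha t with h6 | h6
  · rw [h6, mul_zero, mul_zero]
  · have h7 := h6.symm.dvd_of_dvd_mul_right h5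
    have h8 : j t = 0 := Nat.eq_zero_of_dvd_of_lt h7 (hj t)
    rw [h8, zero_mul, mul_zero]

/-- the choice of a conjugate character -/
theorem conj (hn : ∀ t, 2 ≤ n t) (hco : Pairwise (Function.onFun Nat.Coprime n)) (P : Fin s → ℕ)
    (hP : ∀ t (q : ℕ), q.Prime → q ∣ n t → P t ≤ q) (j : Fin s → ℕ) :
    ∃ (j' : ℕ) (g : Fin s → ℕ), j'.Coprime (∏ t, n t) ∧ (∀ t, P t * g t ≤ n t) ∧
      ∀ a : Fin s → ℕ, (j' * EE n j a) % (∏ t, n t) ≤ ∑ t, (∏ t, n t) / n t * g t * a t := by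
  choose u g hu hg hug using fun t => single (n t) (j t) (by have := hn t; omega)
  obtain ⟨j', hj'⟩ := Nat.chineseRemainderOfFinset u n univ (fun t _ => by have := hn t; omega)
    (fun t _ t' _ h => hco h)
  have hjt : ∀ t, j' ≡ u t [MOD n t] := fun t => hj' t (mem_univ t)
  refine ⟨j', fun t => g t % n t, ?_, ?_, ?_⟩
  · exact Nat.Coprime.prod_right fun t _ => coprime_of_modEq (hjt t) (hu t)
  · intro t
    exact (divisor_mod (n t) (g t) (P t) (by have := hn t; omega) (hg t) (hP t)).1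
  · intro a
    have h1 : j' * EE n j a ≡ ∑ t, (∏ t, n t) / n t * (g t % n t) * a t [MOD ∏ t, n t] := by
      unfold EE
      rw [mul_sum]
      have h2 : ∀ t ∈ univ, j' * ((∏ t, n t) / n t * (j t * a t))
          ≡ (∏ t, n t) / n t * (g t % n t) * a t [MOD ∏ t, n t] := by
        intro t _
        have h3 : j' * j t ≡ g t % n t [MOD n t] :=
          (((hjt t).mul_right _).trans (hug t)).trans (Nat.mod_modEq _ _).symm
        have h4 := (h3.mul_left' ((∏ t, n t) / n t)).mul_right (a t)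
        rw [div_mul hn t] at h4
        have h5 : j' * ((∏ t, n t) / n t * (j t * a t))
            = (∏ t, n t) / n t * (j' * j t) * a t := by ring
        rw [h5]
        exact h4
      have key : ∀ s' : Finset (Fin s), ∑ t ∈ s', j' * ((∏ t, n t) / n t * (j t * a t))
          ≡ ∑ t ∈ s', (∏ t, n t) / n t * (g t % n t) * a t [MOD ∏ t, n t] := by
        intro s'
        induction s' using Finset.induction_on with
        | empty => simp [Nat.ModEq]
        | insert b s' hb ih =>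
          rw [sum_insert hb, sum_insert hb]
          exact (h2 b (mem_univ b)).add ih
      exact key univ
    rw [h1]
    exact Nat.mod_le _ _

/-- the inequality -/
theorem ineq (hn : ∀ t, 2 ≤ n t) (P : Fin s → ℕ) (hP1 : ∀ t, 0 < P t) {r : ℕ} (D : ℕ)
    (d : Fin r → ℕ) (a : Fin s → Fin r → ℕ)
    (h : ((D : ℚ) + 1) * ∑ t, (∑ i, (max 1 (d i) : ℕ) * (a t i : ℚ)) / P t < 1)
    (g : Fin s → ℕ) (hg : ∀ t, P t * g t ≤ n t) (e : Fin r → ℕ)
    (he : ∀ i, e i ≤ ∑ t, (∏ t, n t) / n t * g t * a t i) :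
    (D + 1) * ∑ i, max 1 (d i) * e i < ∏ t, n t := by
  have hN := pos_N hn
  have hNQ : (0 : ℚ) < (∏ t, n t : ℕ) := by exact_mod_cast hN
  have h1 : ((∑ i, max 1 (d i) * e i : ℕ) : ℚ)
      ≤ (∏ t, n t : ℕ) * ∑ t, (∑ i, (max 1 (d i) : ℕ) * (a t i : ℚ)) / P t := by
    have h2 : ∀ i, (e i : ℚ) ≤ ∑ t, ((∏ t, n t : ℕ) : ℚ) / P t * a t i := by
      intro i
      have h8 : ((e i : ℕ) : ℚ) ≤ ((∑ t, (∏ t, n t) / n t * g t * a t i : ℕ) : ℚ) :=
        Nat.cast_le.mpr (he i)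
      refine le_trans h8 ?_
      rw [Nat.cast_sum]
      refine sum_le_sum fun t _ => ?_
      rw [Nat.cast_mul]
      refine mul_le_mul_of_nonneg_right ?_ (by positivity)
      have h3 : (0 : ℚ) < P t := by exact_mod_cast hP1 t
      rw [le_div_iff₀ h3]
      have h4 : (∏ t, n t) / n t * g t * P t ≤ ∏ t, n t := by
        calc (∏ t, n t) / n t * g t * P t = (∏ t, n t) / n t * (P t * g t) := by ring
          _ ≤ (∏ t, n t) / n t * n t := Nat.mul_le_mul_left _ (hg t)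
          _ = ∏ t, n t := div_mul hn t
      have h5 : (((∏ t, n t) / n t * g t * P t : ℕ) : ℚ) ≤ ((∏ t, n t : ℕ) : ℚ) :=
        Nat.cast_le.mpr h4
      rw [Nat.cast_mul] at h5
      exact h5
    push_cast
    calc ∑ i, (max 1 (d i : ℚ)) * (e i : ℚ)
        ≤ ∑ i, (max 1 (d i : ℚ)) * ∑ t, ((∏ t, n t : ℕ) : ℚ) / P t * a t i :=
          sum_le_sum fun i _ => mul_le_mul_of_nonneg_left (h2 i) (by positivity)
      _ = _ := by
          push_cast
          simp only [mul_sum, sum_div]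
          rw [sum_comm]
          refine sum_congr rfl fun t _ => sum_congr rfl fun i _ => ?_
          ring
  have h6 : (((D + 1) * ∑ i, max 1 (d i) * e i : ℕ) : ℚ) < ((∏ t, n t : ℕ) : ℚ) := by
    have h7 : (((D + 1) * ∑ i, max 1 (d i) * e i : ℕ) : ℚ)
        = ((D : ℚ) + 1) * ((∑ i, max 1 (d i) * e i : ℕ) : ℚ) := by push_cast; ring
    rw [h7]
    calc ((D : ℚ) + 1) * ((∑ i, max 1 (d i) * e i : ℕ) : ℚ)
        ≤ ((D : ℚ) + 1) * ((∏ t, n t : ℕ)
          * ∑ t, (∑ i, (max 1 (d i) : ℕ) * (a t i : ℚ)) / P t) :=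
          mul_le_mul_of_nonneg_left h1 (by positivity)
      _ = (∏ t, n t : ℕ) * (((D : ℚ) + 1)
          * ∑ t, (∑ i, (max 1 (d i) : ℕ) * (a t i : ℚ)) / P t) := by ring
      _ < (∏ t, n t : ℕ) * 1 := mul_lt_mul_of_pos_left h hNQ
      _ = _ := by rw [mul_one]
  exact_mod_cast h6

/-- the exponents are small -/
theorem small (P : Fin s → ℕ) (hP1 : ∀ t, 0 < P t) {r : ℕ} (D : ℕ)
    (d : Fin r → ℕ) (a : Fin s → Fin r → ℕ)
    (h : ((D : ℚ) + 1) * ∑ t, (∑ i, (max 1 (d i) : ℕ) * (a t i : ℚ)) / P t < 1)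
    (t : Fin s) (i : Fin r) : a t i < P t := by
  have h3 : (0 : ℚ) < P t := by exact_mod_cast hP1 t
  have h1 : (a t i : ℚ) ≤ ∑ i, (max 1 (d i) : ℕ) * (a t i : ℚ) := by
    refine le_trans ?_ (single_le_sum (f := fun i => ((max 1 (d i) : ℕ) : ℚ) * (a t i : ℚ))
      (fun i _ => by positivity) (mem_univ i))
    refine le_mul_of_one_le_left (by positivity) ?_
    exact_mod_cast le_max_left 1 (d i)
  have h2 : (∑ i, (max 1 (d i) : ℕ) * (a t i : ℚ)) / P t
      ≤ ∑ t, (∑ i, (max 1 (d i) : ℕ) * (a t i : ℚ)) / P t :=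
    single_le_sum (f := fun t => (∑ i, (max 1 (d i) : ℕ) * (a t i : ℚ)) / P t)
      (fun t _ => by positivity) (mem_univ t)
  have h4 : ∑ t, (∑ i, (max 1 (d i) : ℕ) * (a t i : ℚ)) / P t
      ≤ ((D : ℚ) + 1) * ∑ t, (∑ i, (max 1 (d i) : ℕ) * (a t i : ℚ)) / P t := by
    refine le_mul_of_one_le_left (sum_nonneg fun t _ => by positivity) ?_
    have : (0 : ℚ) ≤ D := by positivity
    linarith
  have h5 : (a t i : ℚ) / P t < 1 := by
    refine lt_of_le_of_lt ?_ (lt_of_le_of_lt h4 h)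
    refine le_trans ?_ h2
    exact div_le_div_of_nonneg_right h1 h3.le
  rw [div_lt_one h3] at h5
  exact_mod_cast h5

end

end Pool.Agent.K9h16.LD
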