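import Pool.Agent.K9h16.TG.Est

/-!
The inequality of one digit for the curves `m x + m' y + f(l x + l' y) = 0`.
-/

set_option autoImplicit false

namespace Pool.Agent.K9h16.LD

open Finset Pool.Agent.K9h16.TG

section

variable {I : Type} [Fintype I] [DecidableEq I] {D : ℕ}

/-- The conditions on the exponents of a nonzero term. -/
structure Adm (Q : ℕ) (B d : I → ℕ) (x y : I → ℕ) (h : I → Fin (D + 1) → ℕ) (a p p' : I → ℕ) :
    Prop where
  lx : ∀ i, x i ≤ Q
  ly : ∀ i, y i ≤ Q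
  lh : ∀ i k, h i k ≤ Q
  la : ∀ i, a i ≤ Q
  lp : ∀ i, p i ≤ Q
  lp' : ∀ i, p' i ≤ Q
  vh : ∀ i (k : Fin (D + 1)), d i < k → h i k = 0
  cB : ∀ i, x i + y i + ∑ k, h i k ≡ B i [MOD Q]
  ca : ∀ i, a i ≡ ∑ k : Fin (D + 1), (k : ℕ) * h i k [MOD Q]
  za : ∀ i, ∑ k : Fin (D + 1), (k : ℕ) * h i k = 0 → a i = 0
  cp : ∀ i, p i + p' i ≡ a i [MOD Q]
  zp : ∀ i, a i ≠ 0 → p i + p' i ≠ 0
  dx : Q ∣ ∑ i, x i + ∑ i, p i
  dy : Q ∣ ∑ i, y i + ∑ i, p' i

lemma z0_one {n : ℕ} (h : n = 0) : z0 n = 1 := by unfold z0; rw [if_pos h]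

lemma dvd_cases {Q A : ℕ} (h : Q ∣ A) : A = 0 ∨ Q ≤ A := by
  rcases Nat.eq_zero_or_pos A with h1 | h1
  · exact Or.inl h1
  · exact Or.inr (Nat.le_of_dvd h1 h)

lemma exists_mul {Q A B : ℕ} (hB : B ≤ Q) (h : A ≡ B [MOD Q]) (h0 : B = Q → Q ≤ A) :
    ∃ W, A = B + Q * W := by
  rcases Nat.lt_or_ge B Q with h1 | h1
  · refine ⟨A / Q, ?_⟩
    have h2 : A % Q = B := by
      rw [h, Nat.mod_eq_of_lt h1]
    rw [← h2]
    exact (Nat.mod_add_div A Q).symm
  · have h2 : B = Q := by omega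
    have h3 := h0 h2
    rw [h2] at h ⊢
    have h4 : Q ∣ A := by
      have h5 : Q ≡ 0 [MOD Q] := by simp [Nat.ModEq]
      exact (Nat.modEq_zero_iff_dvd).mp (h.trans h5)
    obtain ⟨m, rfl⟩ := h4
    rcases Nat.eq_zero_or_pos m with h5 | h5
    · subst h5
      refine ⟨0, ?_⟩
      omega
    · refine ⟨m - 1, ?_⟩
      obtain ⟨m', rfl⟩ : ∃ m', m = m' + 1 := ⟨m - 1, by omega⟩
      simp
      ring

/-- the inequality -/
theorem comb {Q : ℕ} {B d : I → ℕ} {x y : I → ℕ} {h : I → Fin (D + 1) → ℕ} {a p p' : I → ℕ}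
    (hQ : 0 < Q) (hd : ∀ i, d i ≤ D) (hB : ∀ i, B i < Q)
    (hD : (D + 1) * ∑ i, max 1 (d i) * B i < Q) (H : Adm Q B d x y h a p p') :
    (∑ i, B i + ∑ i, a i) + 2 * Q ≤ (∑ i, (x i + y i + ∑ k, h i k) + ∑ i, (p i + p' i))
      + (Q * z0 (∑ i, x i + ∑ i, p i) + Q * z0 (∑ i, y i + ∑ i, p' i)) := by
  choose W hW using fun i => exists_mul (hB i).le (H.cB i) (fun h => absurd h (hB i).ne)
  have hC0 : ∀ i, ∃ C, p i + p' i = a i + Q * C := by
    intro i
    refine exists_mul (H.la i) (H.cp i) fun h1 => ?_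
    have h2 : a i ≠ 0 := by omega
    have h3 := H.zp i h2
    have h4 : p i + p' i ≡ 0 [MOD Q] := by
      refine (H.cp i).trans ?_
      rw [h1]
      simp [Nat.ModEq]
    exact Nat.le_of_dvd (by omega) ((Nat.modEq_zero_iff_dvd).mp h4)
  choose C hC using hC0
  -- the sizes of the `a`
  have ha : ∀ i, a i ≤ d i * ∑ k, h i k := by
    intro i
    have h1 : a i ≤ ∑ k : Fin (D + 1), (k : ℕ) * h i k := by
      by_cases h2 : ∑ k : Fin (D + 1), (k : ℕ) * h i k = 0
      · rw [H.za i h2]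
        exact Nat.zero_le _
      · obtain ⟨m, hm⟩ := exists_mul (H.la i) (H.ca i).symm (fun h3 => by
          have h4 := (H.ca i).symm
          rw [h3] at h4
          have h5 : Q ≡ 0 [MOD Q] := by simp [Nat.ModEq]
          exact Nat.le_of_dvd (by omega) ((Nat.modEq_zero_iff_dvd).mp (h4.trans h5)))
        omega
    refine h1.trans ?_
    rw [mul_sum]
    refine sum_le_sum fun k _ => ?_
    rcases Nat.lt_or_ge (d i) k with h2 | h2
    · rw [H.vh i k h2]
      simp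
    · exact Nat.mul_le_mul_right _ h2
  have eS : ∑ i, (x i + y i + ∑ k, h i k) = ∑ i, B i + Q * ∑ i, W i := by
    rw [sum_congr rfl fun i _ => hW i, sum_add_distrib, mul_sum]
  have eP : ∑ i, (p i + p' i) = ∑ i, a i + Q * ∑ i, C i := by
    rw [sum_congr rfl fun i _ => hC i, sum_add_distrib, mul_sum]
  rw [eS, eP]
  have eXY : (∑ i, x i + ∑ i, p i) + (∑ i, y i + ∑ i, p' i)
      = ∑ i, (x i + y i) + (∑ i, a i + Q * ∑ i, C i) := by
    rw [← eP, sum_add_distrib, sum_add_distrib]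
    ring
  set X := ∑ i, x i + ∑ i, p i with hX
  set Y := ∑ i, y i + ∑ i, p' i with hY
  set β := ∑ i, max 1 (d i) * B i with hβ
  have hβQ : β < Q := by
    refine lt_of_le_of_lt ?_ hD
    exact Nat.le_mul_of_pos_left _ (by omega)
  have hmax : ∀ i, 0 < max 1 (d i) := fun i => lt_of_lt_of_le one_pos (le_max_left _ _)
  have hsmall : ∀ i, W i = 0 → (x i + y i) + a i ≤ max 1 (d i) * B i := by
    intro i hi
    have h1 := hW i
    rw [hi, mul_zero, add_zero] at h1
    rw [← h1, mul_add]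
    refine Nat.add_le_add (Nat.le_mul_of_pos_left _ (hmax i)) ((ha i).trans ?_)
    exact Nat.mul_le_mul_right _ (le_max_right _ _)
  rcases Nat.lt_or_ge (∑ i, W i + ∑ i, C i) 2 with hWC | hWC
  swap
  · have h3 : Q * 2 ≤ Q * (∑ i, W i + ∑ i, C i) := Nat.mul_le_mul_left _ hWC
    rw [mul_add] at h3
    omega
  rcases Nat.eq_zero_or_pos (∑ i, W i) with hW0 | hW0
  · -- all the `W` are zero
    have hW1 : ∀ i, W i = 0 := fun i => (sum_eq_zero_iff.mp hW0) i (mem_univ i)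
    have h1 : ∑ i, (x i + y i) + ∑ i, a i ≤ β := by
      rw [← sum_add_distrib]
      exact sum_le_sum fun i _ => hsmall i (hW1 i)
    rw [hW0]
    rcases Nat.eq_zero_or_pos (∑ i, C i) with hC1 | hC1
    · rw [hC1] at eXY ⊢
      have h2 : X = 0 := by
        rcases dvd_cases H.dx with h | h
        · exact h
        · exfalso
          rw [← hX] at h
          omega
      have h3 : Y = 0 := by
        rcases dvd_cases H.dy with h | h
        · exact h
        · exfalso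
          rw [← hY] at h
          omega
      rw [z0_one h2, z0_one h3]
      omega
    · have hC2 : ∑ i, C i = 1 := by omega
      rw [hC2] at eXY ⊢
      rcases dvd_cases H.dx with h2 | h2
      · rw [← hX] at h2
        rw [z0_one h2]
        omega
      rcases dvd_cases H.dy with h3 | h3
      · rw [← hY] at h3
        rw [z0_one h3]
        omega
      rw [← hX] at h2
      rw [← hY] at h3
      omega
  · -- exactly one `W` is one
    have hW2 : ∑ i, W i = 1 := by omega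
    have hC2 : ∑ i, C i = 0 := by omega
    rw [hW2]
    rw [hC2, mul_zero, add_zero] at eXY
    rcases dvd_cases H.dx with h2 | h2
    · rw [← hX] at h2
      rw [z0_one h2]
      omega
    rcases dvd_cases H.dy with h3 | h3
    · rw [← hY] at h3
      rw [z0_one h3]
      omega
    rw [← hX] at h2
    rw [← hY] at h3
    exfalso
    obtain ⟨i0, hi0⟩ : ∃ i0, W i0 ≠ 0 := by
      by_contra hcon
      push Not at hcon
      rw [sum_eq_zero fun i _ => hcon i] at hW2
      omega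
    have h4 := add_sum_erase univ W (mem_univ i0)
    have hWi0 : W i0 = 1 := by omega
    have hWr : ∀ i ∈ univ.erase i0, W i = 0 := by
      have h5 : ∑ i ∈ univ.erase i0, W i = 0 := by omega
      exact fun i hi => (sum_eq_zero_iff.mp h5) i hi
    have h6 : ∑ i ∈ univ.erase i0, ((x i + y i) + a i)
        ≤ ∑ i ∈ univ.erase i0, max 1 (d i) * B i :=
      sum_le_sum fun i hi => hsmall i (hWr i hi)
    have h7 := add_sum_erase univ (fun i => (x i + y i) + a i) (mem_univ i0)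
    have h8 := add_sum_erase univ (fun i => max 1 (d i) * B i) (mem_univ i0)
    rw [← hβ] at h8
    have h7' : ∑ i, ((x i + y i) + a i) = ∑ i, (x i + y i) + ∑ i, a i := sum_add_distrib
    rw [h7'] at h7
    have h9 := hW i0
    rw [hWi0, mul_one] at h9
    have h10 := ha i0
    have h11 := H.la i0
    have h12 : B i0 ≤ max 1 (d i0) * B i0 := Nat.le_mul_of_pos_left _ (hmax i0)
    have h13 : ∑ k, h i0 k ≤ β := by omega
    have h14 : a i0 ≤ D * β := h10.trans (Nat.mul_le_mul (hd i0) h13)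
    have h15 : (D + 1) * β = D * β + β := by ring
    omega

lemma rot_sum (c Q t : ℕ) {σ : Type} (s' : Finset σ) (m k : σ → ℕ) (hk : ∀ s, k s ≤ Q) :
    ∑ s ∈ s', m s * rot c Q t (k s) ≡ (∑ s ∈ s', m s * k s) * c ^ t [MOD Q] := by
  classical
  rw [sum_mul]
  have : ∀ s ∈ s', m s * rot c Q t (k s) ≡ m s * k s * c ^ t [MOD Q] := by
    intro s _
    have h6 := (rot_modEq c Q t (k s) (hk s)).mul_left (m s)
    rwa [← mul_assoc] at h6
  induction s' using Finset.induction_on with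
  | empty => simp [Nat.ModEq]
  | insert a s' ha ih =>
    rw [sum_insert ha, sum_insert ha]
    exact (this a (mem_insert_self a s')).add (ih fun s hs => this s (mem_insert_of_mem hs))

lemma rot_sum1 (c Q t : ℕ) {σ : Type} (s' : Finset σ) (k : σ → ℕ) (hk : ∀ s, k s ≤ Q) :
    ∑ s ∈ s', rot c Q t (k s) ≡ (∑ s ∈ s', k s) * c ^ t [MOD Q] := by
  have := rot_sum c Q t s' (fun _ => 1) k hk
  simpa using this

lemma rot_eq_zero {c Q t k : ℕ} (hQ : 0 < Q) (hc : c.Coprime Q) (hk : k ≤ Q) :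
    rot c Q t k = 0 ↔ k = 0 := by
  refine ⟨fun h => ?_, fun h => ?_⟩
  · by_contra h6
    exact (rot_pos c Q t k hc (Nat.pos_of_ne_zero h6) hk).ne' h
  · rw [h]
    exact rot_zero c Q t hQ

lemma rot_sum_zero {c Q t : ℕ} (hQ : 0 < Q) (hc : c.Coprime Q) {σ : Type} (s' : Finset σ)
    (m k : σ → ℕ) (hk : ∀ s, k s ≤ Q) :
    ∑ s ∈ s', m s * rot c Q t (k s) = 0 ↔ ∑ s ∈ s', m s * k s = 0 := by
  rw [sum_eq_zero_iff, sum_eq_zero_iff]
  refine forall_congr' fun s => forall_congr' fun _ => ?_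
  rw [Nat.mul_eq_zero, Nat.mul_eq_zero, rot_eq_zero hQ hc (hk s)]

lemma rot_sum_zero1 {c Q t : ℕ} (hQ : 0 < Q) (hc : c.Coprime Q) {σ : Type} (s' : Finset σ)
    (k : σ → ℕ) (hk : ∀ s, k s ≤ Q) :
    ∑ s ∈ s', rot c Q t (k s) = 0 ↔ ∑ s ∈ s', k s = 0 := by
  have := rot_sum_zero (t := t) hQ hc s' (fun _ => 1) k hk
  simpa using this

/-- the conditions hold after a shift of the digits -/
theorem Adm.rot {c Q t : ℕ} (hQ : 0 < Q) (hc : c.Coprime Q) {B d : I → ℕ} {x y : I → ℕ}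
    {h : I → Fin (D + 1) → ℕ} {a p p' : I → ℕ} (hB : ∀ i, B i * c ^ t ≡ B i [MOD Q])
    (H : Adm Q B d x y h a p p') :
    Adm Q B d (fun i => TG.rot c Q t (x i)) (fun i => TG.rot c Q t (y i))
      (fun i k => TG.rot c Q t (h i k)) (fun i => TG.rot c Q t (a i)) (fun i => TG.rot c Q t (p i))
      (fun i => TG.rot c Q t (p' i)) where
  lx _ := rot_le _ _ _ _ hQ
  ly _ := rot_le _ _ _ _ hQ
  lh _ _ := rot_le _ _ _ _ hQ
  la _ := rot_le _ _ _ _ hQ
  lp _ := rot_le _ _ _ _ hQ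
  lp' _ := rot_le _ _ _ _ hQ
  vh i k hk := by
    rw [H.vh i k hk]
    exact rot_zero c Q t hQ
  cB i := by
    refine (((rot_modEq c Q t (x i) (H.lx i)).add (rot_modEq c Q t (y i) (H.ly i))).add
      (rot_sum1 c Q t univ (h i) (H.lh i))).trans ?_
    rw [← add_mul, ← add_mul]
    exact ((H.cB i).mul_right _).trans (hB i)
  ca i := by
    refine (rot_modEq c Q t (a i) (H.la i)).trans ?_
    exact ((H.ca i).mul_right _).trans (rot_sum c Q t univ _ (h i) (H.lh i)).symm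
  za i h0 := by
    rw [rot_sum_zero hQ hc univ _ (h i) (H.lh i)] at h0
    rw [H.za i h0]
    exact rot_zero c Q t hQ
  cp i := by
    refine ((rot_modEq c Q t (p i) (H.lp i)).add (rot_modEq c Q t (p' i) (H.lp' i))).trans ?_
    rw [← add_mul]
    exact ((H.cp i).mul_right _).trans (rot_modEq c Q t (a i) (H.la i)).symm
  zp i h0 h1 := by
    have h2 : a i ≠ 0 := fun h => h0 ((rot_eq_zero hQ hc (H.la i)).mpr h)
    apply H.zp i h2
    have h3 : TG.rot c Q t (p i) = 0 := by omega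
    have h4 : TG.rot c Q t (p' i) = 0 := by omega
    rw [rot_eq_zero hQ hc (H.lp i)] at h3
    rw [rot_eq_zero hQ hc (H.lp' i)] at h4
    omega
  dx := by
    refine (Nat.modEq_zero_iff_dvd).mp ?_
    refine ((rot_sum1 c Q t univ x H.lx).add (rot_sum1 c Q t univ p H.lp)).trans ?_
    rw [← add_mul]
    exact (Nat.modEq_zero_iff_dvd).mpr (H.dx.mul_right _)
  dy := by
    refine (Nat.modEq_zero_iff_dvd).mp ?_
    refine ((rot_sum1 c Q t univ y H.ly).add (rot_sum1 c Q t univ p' H.lp')).trans ?_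
    rw [← add_mul]
    exact (Nat.modEq_zero_iff_dvd).mpr (H.dy.mul_right _)

/-- the inequality for all the digits -/
theorem comb_tau (F : ℕ) {c Q N : ℕ} (hQ : 0 < Q) (hc : c.Coprime Q) (hN : N ∣ c - 1) (hc1 : 1 ≤ c)
    (hNQ : N ∣ Q) (hN0 : 0 < N) (b : I → ℕ) (hb : ∀ i, b i < N) {d : I → ℕ} (hd : ∀ i, d i ≤ D)
    (hD : (D + 1) * ∑ i, max 1 (d i) * b i < N) {x y : I → ℕ}
    {h : I → Fin (D + 1) → ℕ} {a p p' : I → ℕ}
    (H : Adm Q (fun i => b i * (Q / N)) d x y h a p p') :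
    (∑ i, tau c F Q (b i * (Q / N)) + ∑ i, tau c F Q (a i)) + F * (2 * Q)
      ≤ (∑ i, (tau c F Q (x i) + tau c F Q (y i) + ∑ k, tau c F Q (h i k))
        + ∑ i, (tau c F Q (p i) + tau c F Q (p' i)))
      + (F * Q * z0 (∑ i, x i + ∑ i, p i) + F * Q * z0 (∑ i, y i + ∑ i, p' i)) := by
  obtain ⟨u, hu⟩ := hNQ
  have hQN : Q / N = u := by rw [hu, Nat.mul_div_cancel_left u hN0]
  simp only [hQN] at H ⊢
  have hu0 : 0 < u := by
    rcases Nat.eq_zero_or_pos u with h | h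
    · subst h
      omega
    · exact h
  have hfix : ∀ t i, b i * u * c ^ t ≡ b i * u [MOD Q] := by
    intro t i
    have h4 : c ^ t ≡ 1 [MOD N] := by
      have h5 : c ≡ 1 [MOD N] := ((Nat.modEq_iff_dvd' hc1).mpr hN).symm
      simpa using h5.pow t
    have h6 := h4.mul_left' (u * b i)
    have h7 : u * b i * N = Q * b i := by rw [hu]; ring
    rw [h7] at h6
    have h8 := Nat.ModEq.of_mul_right _ h6
    have e1 : u * b i * c ^ t = b i * u * c ^ t := by ring
    have e2 : u * b i * 1 = b i * u := by ring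
    rwa [e1, e2] at h8
  have hlt : ∀ i, b i * u < Q := by
    intro i
    rw [hu]
    exact Nat.mul_lt_mul_of_pos_right (hb i) hu0
  have htau : ∀ i, tau c F Q (b i * u) = F * (b i * u) := by
    intro i
    unfold tau
    rw [sum_congr rfl (g := fun _ => b i * u)]
    · simp
    · intro t _
      unfold TG.rot
      rw [if_neg (hlt i).ne]
      exact (hfix t i).trans (by rw [Nat.ModEq]) |>.symm ▸ Nat.mod_eq_of_lt (hlt i)
  have hDu : (D + 1) * ∑ i, max 1 (d i) * (b i * u) < Q := by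
    have e1 : ∑ i, max 1 (d i) * (b i * u) = (∑ i, max 1 (d i) * b i) * u := by
      rw [sum_mul]
      exact sum_congr rfl fun i _ => by ring
    rw [e1, hu, ← mul_assoc]
    exact Nat.mul_lt_mul_of_pos_right hD hu0
  have hz : ∀ (v v' : I → ℕ) (t : ℕ), (∀ i, v i ≤ Q) → (∀ i, v' i ≤ Q) →
      z0 (∑ i, TG.rot c Q t (v i) + ∑ i, TG.rot c Q t (v' i)) = z0 (∑ i, v i + ∑ i, v' i) := by
    intro v v' t hv hv'
    unfold z0
    have h5 : (∑ i, TG.rot c Q t (v i) + ∑ i, TG.rot c Q t (v' i) = 0)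
        ↔ (∑ i, v i + ∑ i, v' i = 0) := by
      rw [Nat.add_eq_zero_iff, Nat.add_eq_zero_iff, rot_sum_zero1 hQ hc univ v hv,
        rot_sum_zero1 hQ hc univ v' hv']
    simp only [h5]
  have key : ∀ t ∈ range F, (∑ i, b i * u + ∑ i, TG.rot c Q t (a i)) + 2 * Q
      ≤ (∑ i, (TG.rot c Q t (x i) + TG.rot c Q t (y i) + ∑ k, TG.rot c Q t (h i k))
        + ∑ i, (TG.rot c Q t (p i) + TG.rot c Q t (p' i)))
      + (Q * z0 (∑ i, x i + ∑ i, p i) + Q * z0 (∑ i, y i + ∑ i, p' i)) := by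
    intro t _
    have h9 := comb hQ hd hlt hDu (H.rot (t := t) hQ hc (hfix t))
    rw [hz x p t H.lx H.lp, hz y p' t H.ly H.lp'] at h9
    exact h9
  have h12 := sum_le_sum key
  rw [sum_congr rfl fun i _ => htau i]
  simp only [sum_const, card_range, smul_eq_mul, sum_add_distrib] at h12
  have c1 : ∀ v : I → ℕ, ∑ t ∈ range F, ∑ i, TG.rot c Q t (v i) = ∑ i, tau c F Q (v i) := by
    intro v
    rw [sum_comm]
    rfl
  have c2 : ∑ t ∈ range F, ∑ i, ∑ k, TG.rot c Q t (h i k) = ∑ i, ∑ k, tau c F Q (h i k) := by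
    rw [sum_comm]
    refine sum_congr rfl fun i _ => ?_
    rw [sum_comm]
    rfl
  rw [c1, c1, c1, c1, c1, c2] at h12
  simp only [sum_add_distrib]
  have e3 : ∑ i, F * (b i * u) = F * ∑ i, b i * u := by rw [mul_sum]
  rw [e3]
  calc F * ∑ i, b i * u + ∑ i, tau c F Q (a i) + F * (2 * Q)
      = F * (∑ i, b i * u) + ∑ i, tau c F Q (a i) + F * (2 * Q) := rfl
    _ ≤ _ := h12
    _ = _ := by ring

end

end Pool.Agent.K9h16.LD
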