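import Pool.Agent.K9h16.LD.Bin
import Pool.Agent.K9h16.LD.Comb

/-!
The expansion of the sums.
-/

set_option autoImplicit false

namespace Pool.Agent.K9h16.LD

open Finset Polynomial Pool.Agent.W528.HA Pool.Agent.W528.HB Pool.Agent.W528.HD
open Pool.Agent.K9h16.TG

section

variable {c : ℕ} [Fact c.Prime] {L : Type} [Field L] [Fintype L]
variable {ι σ : Type} [Fintype ι] [DecidableEq ι] [Fintype σ] [DecidableEq σ]
variable (w : MulChar L (PadicAlgCl c)) (ψ : AddChar L (PadicAlgCl c))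

/-- the coefficient -/
noncomputable def C1 (idx : σ → ι) (co : σ → L) (χ : ι → MulChar L (PadicAlgCl c))
    (k : σ → ℕ) : PadicAlgCl c :=
  (∏ s, (G w ψ (k s) * w (co s) ^ k s)) * (∏ i, ∑ u : L, (χ i)⁻¹ u * w u ^ KK idx k i)

/-- the first step -/
theorem stage1 (hw : Function.Injective w) (hψ : ψ.IsPrimitive) (idx : σ → ι)
    (co v : σ → L) (χ : ι → MulChar L (PadicAlgCl c)) (hχ : ∀ i, χ i ≠ 1) :
    (∏ i, gaussSum (χ i)⁻¹ ψ) * ∏ i, χ i (∑ s with idx s = i, co s * v s)
      = ∑ k ∈ Fintype.piFinset (fun _ : σ => range (Fintype.card L)),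
          C1 w ψ idx co χ k * ∏ s, w (v s) ^ k s := by
  classical
  have h2 : ∀ i, gaussSum (χ i)⁻¹ ψ * χ i (∑ s with idx s = i, co s * v s)
      = ∑ t : L, (χ i)⁻¹ t * ψ (t * (∑ s with idx s = i, co s * v s)) := fun i =>
    Pool.Agent.W800.HA.GD.one (χ i) ψ (hχ i) _
  rw [← prod_mul_distrib, prod_congr rfl (fun i _ => h2 i), Finset.prod_univ_sum,
    Fintype.piFinset_univ]
  have h1 : ∀ u : ι → L, ∏ i, ((χ i)⁻¹ (u i) * ψ (u i * (∑ s with idx s = i, co s * v s)))
      = ∑ k ∈ Fintype.piFinset (fun _ : σ => range (Fintype.card L)),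
        (∏ s, (G w ψ (k s) * w (co s) ^ k s)) * ((∏ i, ((χ i)⁻¹ (u i) * w (u i) ^ KK idx k i)) *
        ∏ s, w (v s) ^ k s) := by
    intro u
    rw [prod_mul_distrib]
    have h3 : ∀ i, ψ (u i * (∑ s with idx s = i, co s * v s))
        = ∏ s with idx s = i, ψ (u (idx s) * (co s * v s)) := by
      intro i
      rw [mul_sum, Pool.Agent.W800.HA.GD.msum]
      refine prod_congr rfl fun s hs => ?_
      rw [mem_filter] at hs
      rw [hs.2]
    rw [prod_congr rfl fun i _ => h3 i, Finset.prod_fiberwise]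
    rw [prod_congr rfl fun s _ => psi_exp w hw ψ hψ _, Finset.prod_univ_sum, mul_sum]
    apply sum_congr rfl
    intro k _
    have h4 : ∏ s, (G w ψ (k s) * w (u (idx s) * (co s * v s)) ^ k s)
        = (∏ s, (G w ψ (k s) * w (co s) ^ k s)) * ((∏ s, w (u (idx s)) ^ k s) *
          ∏ s, w (v s) ^ k s) := by
      rw [← prod_mul_distrib, ← prod_mul_distrib]
      refine prod_congr rfl fun s _ => ?_
      rw [map_mul, map_mul, mul_pow, mul_pow]
      ring
    have h5 : ∏ s, w (u (idx s)) ^ k s = ∏ i, w (u i) ^ KK idx k i := by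
      rw [← Finset.prod_fiberwise (s := univ) (g := idx)]
      refine prod_congr rfl fun i _ => ?_
      unfold KK
      rw [← prod_pow_eq_pow_sum]
      refine prod_congr rfl fun s hs => ?_
      rw [mem_filter] at hs
      rw [hs.2]
    rw [h4, h5, prod_mul_distrib (f := fun i => (χ i)⁻¹ (u i))]
    ring
  rw [sum_congr rfl fun u _ => h1 u, sum_comm]
  refine sum_congr rfl fun k _ => ?_
  unfold C1
  rw [Finset.prod_univ_sum, Fintype.piFinset_univ, mul_sum, sum_mul]
  refine sum_congr rfl fun u _ => ?_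
  ring

end

/-! The reduction of the exponents. -/

/-- the representative in `[0, Q]`, zero only for zero -/
def red (Q A : ℕ) : ℕ := if A = 0 then 0 else if A % Q = 0 then Q else A % Q

lemma red_le (Q A : ℕ) (hQ : 0 < Q) : red Q A ≤ Q := by
  unfold red
  split_ifs
  · exact Nat.zero_le _
  · exact le_rfl
  · exact (Nat.mod_lt _ hQ).le

lemma red_modEq (Q A : ℕ) : red Q A ≡ A [MOD Q] := by
  unfold red
  split_ifs with h1 h2
  · rw [h1]
  · have h3 : Q ≡ 0 [MOD Q] := by simp [Nat.ModEq]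
    exact h3.trans (by rw [Nat.ModEq, h2, Nat.zero_mod])
  · exact Nat.mod_modEq _ _

lemma red_zero (Q : ℕ) : red Q 0 = 0 := by
  unfold red
  rw [if_pos rfl]

lemma red_ne (Q A : ℕ) (hQ : 0 < Q) (h : A ≠ 0) : red Q A ≠ 0 := by
  unfold red
  rw [if_neg h]
  split_ifs with h1
  · omega
  · exact h1

lemma red_pow {c : ℕ} [Fact c.Prime] {L : Type} [Field L] [Fintype L]
    (w : MulChar L (PadicAlgCl c)) (v : L) (A : ℕ) :
    w v ^ A = w v ^ red (Fintype.card L - 1) A := by
  have h2 := Fintype.one_lt_card (α := L)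
  by_cases hA : A = 0
  · rw [hA, red_zero]
  by_cases hv : v = 0
  · subst hv
    rw [MulChar.map_zero, zero_pow hA, zero_pow (red_ne _ _ (by omega) hA)]
  · have h4 := w_pow_card w hv
    rw [← Nat.mod_add_div A (Fintype.card L - 1),
      ← Nat.mod_add_div (red (Fintype.card L - 1) _) (Fintype.card L - 1),
      pow_add, pow_add, pow_mul, pow_mul, h4, one_pow, one_pow, mul_one, mul_one]
    congr 1
    rw [Nat.mod_add_div A (Fintype.card L - 1)]
    exact (red_modEq _ _).symm

/-! The slots. -/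

section

variable (I : Type) (D : ℕ)

/-- the monomials of all the polynomials: `x`, `y` and the powers of the linear form -/
abbrev St : Type := (I ⊕ I) ⊕ (I × Fin (D + 1))

/-- the polynomial to which a monomial belongs -/
def sx : St I D → I
  | Sum.inl (Sum.inl i) => i
  | Sum.inl (Sum.inr i) => i
  | Sum.inr s => s.1

end

section

variable {I : Type} [Fintype I] [DecidableEq I] {D : ℕ}

lemma sum_sx {M : Type} [AddCommMonoid M] (f : St I D → M) (i : I) :
    ∑ s with sx I D s = i, f s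
      = f (Sum.inl (Sum.inl i)) + f (Sum.inl (Sum.inr i)) + ∑ k : Fin (D + 1), f (Sum.inr (i, k)) := by
  rw [sum_filter, Fintype.sum_sum_type, Fintype.sum_sum_type]
  unfold sx
  simp only [sum_ite_eq', mem_univ, if_true]
  congr 1
  rw [Fintype.sum_prod_type]
  have h2 : ∀ i' : I, ∑ y : Fin (D + 1),
      (if ((i', y) : I × Fin (D + 1)).1 = i then f (Sum.inr (i', y)) else 0)
      = if i' = i then ∑ y : Fin (D + 1), f (Sum.inr (i', y)) else 0 := by
    intro i'
    by_cases h : i' = i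
    · simp [h]
    · simp [h]
  rw [sum_congr rfl fun i' _ => h2 i', sum_ite_eq' univ i, if_pos (mem_univ _)]

lemma prod_st {M : Type} [CommMonoid M] (f : St I D → M) :
    ∏ s, f s = (∏ i, f (Sum.inl (Sum.inl i))) * (∏ i, f (Sum.inl (Sum.inr i)))
      * ∏ i, ∏ k : Fin (D + 1), f (Sum.inr (i, k)) := by
  rw [Fintype.prod_sum_type, Fintype.prod_sum_type, Fintype.prod_prod_type]

variable {L : Type} [Field L]

/-- the coefficients -/
def co (D : ℕ) (m m' : I → L) (f : I → L[X]) : St I D → L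
  | Sum.inl (Sum.inl i) => m i
  | Sum.inl (Sum.inr i) => m' i
  | Sum.inr (i, k) => (f i).coeff k

/-- the values of the monomials -/
def vl (D : ℕ) (l l' : I → L) (x y : L) : St I D → L
  | Sum.inl (Sum.inl _) => x
  | Sum.inl (Sum.inr _) => y
  | Sum.inr (i, k) => (l i * x + l' i * y) ^ (k : ℕ)

/-- the polynomials -/
def PP (m m' l l' : I → L) (f : I → L[X]) (i : I) (x y : L) : L :=
  m i * x + m' i * y + (f i).eval (l i * x + l' i * y)

lemma PP_eq (m m' l l' : I → L) (f : I → L[X]) (hf : ∀ i, (f i).natDegree ≤ D) (i : I) (x y : L) :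
    PP m m' l l' f i x y = ∑ s with sx I D s = i, co D m m' f s * vl D l l' x y s := by
  rw [sum_sx]
  unfold PP co vl
  simp only []
  rw [Polynomial.eval_eq_sum_range' (Nat.lt_succ_of_le (hf i)), Finset.sum_range]

end

section

variable {c : ℕ} [Fact c.Prime] {L : Type} [Field L] [Fintype L]
variable {I : Type} [Fintype I] [DecidableEq I] {D : ℕ}
variable (w : MulChar L (PadicAlgCl c)) (ψ : AddChar L (PadicAlgCl c))

/-- the exponent of the linear form -/
def AA (k : St I D → ℕ) (i : I) : ℕ := ∑ j : Fin (D + 1), (j : ℕ) * k (Sum.inr (i, j))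

/-- the term belonging to `k` and `p` -/
noncomputable def T2 (m m' l l' : I → L) (f : I → L[X]) (χ : I → MulChar L (PadicAlgCl c))
    (k : St I D → ℕ) (p : I → ℕ × ℕ) : PadicAlgCl c :=
  C1 w ψ (sx I D) (co D m m' f) χ k *
    ((∏ i, (Cb w ψ (red (Fintype.card L - 1) (AA k i)) (p i).1 (p i).2
      * (w (l i) ^ (p i).1 * w (l' i) ^ (p i).2))) *
    ((∑ x : L, w x ^ (∑ i, k (Sum.inl (Sum.inl i)) + ∑ i, (p i).1)) *
      ∑ y : L, w y ^ (∑ i, k (Sum.inl (Sum.inr i)) + ∑ i, (p i).2)))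

theorem big (hw : Function.Injective w) (hψ : ψ.IsPrimitive)
    (hne : ∀ k, 0 < k → k < Fintype.card L - 1 → w ^ k ≠ 1)
    (hg : ∀ k, 0 < k → k < Fintype.card L - 1 → gaussSum (w ^ k)⁻¹ ψ ≠ 0)
    (m m' l l' : I → L) (f : I → L[X]) (hf : ∀ i, (f i).natDegree ≤ D)
    (χ : I → MulChar L (PadicAlgCl c)) (hχ : ∀ i, χ i ≠ 1) :
    (∏ i, gaussSum (χ i)⁻¹ ψ) * ∑ x : L, ∑ y : L, ∏ i, χ i (PP m m' l l' f i x y)
      = ∑ k ∈ Fintype.piFinset (fun _ : St I D => range (Fintype.card L)),
        ∑ p ∈ Fintype.piFinset (fun _ : I => range (Fintype.card L) ×ˢ range (Fintype.card L)),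
          T2 w ψ m m' l l' f χ k p := by
  classical
  have h2 := Fintype.one_lt_card (α := L)
  have h1 : ∀ x y : L, (∏ i, gaussSum (χ i)⁻¹ ψ) * ∏ i, χ i (PP m m' l l' f i x y)
      = ∑ k ∈ Fintype.piFinset (fun _ : St I D => range (Fintype.card L)),
        ∑ p ∈ Fintype.piFinset (fun _ : I => range (Fintype.card L) ×ˢ range (Fintype.card L)),
        (C1 w ψ (sx I D) (co D m m' f) χ k * ∏ i, (Cb w ψ (red (Fintype.card L - 1) (AA k i))
          (p i).1 (p i).2 * (w (l i) ^ (p i).1 * w (l' i) ^ (p i).2))) *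
        (w x ^ (∑ i, k (Sum.inl (Sum.inl i)) + ∑ i, (p i).1) *
          w y ^ (∑ i, k (Sum.inl (Sum.inr i)) + ∑ i, (p i).2)) := by
    intro x y
    have e0 : ∏ i, χ i (PP m m' l l' f i x y)
        = ∏ i, χ i (∑ s with sx I D s = i, co D m m' f s * vl D l l' x y s) :=
      prod_congr rfl fun i _ => by rw [PP_eq m m' l l' f hf i x y]
    rw [e0, stage1 w ψ hw hψ (sx I D) (co D m m' f) (vl D l l' x y) χ hχ]
    refine sum_congr rfl fun k _ => ?_
    rw [prod_st]
    have e1 : ∏ i, w (vl D l l' x y (Sum.inl (Sum.inl i))) ^ k (Sum.inl (Sum.inl i))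
        = w x ^ ∑ i, k (Sum.inl (Sum.inl i)) := by
      rw [← prod_pow_eq_pow_sum]
      rfl
    have e2 : ∏ i, w (vl D l l' x y (Sum.inl (Sum.inr i))) ^ k (Sum.inl (Sum.inr i))
        = w y ^ ∑ i, k (Sum.inl (Sum.inr i)) := by
      rw [← prod_pow_eq_pow_sum]
      rfl
    have e3 : ∀ i, ∏ j : Fin (D + 1), w (vl D l l' x y (Sum.inr (i, j))) ^ k (Sum.inr (i, j))
        = ∑ p ∈ range (Fintype.card L) ×ˢ range (Fintype.card L),
          Cb w ψ (red (Fintype.card L - 1) (AA k i)) p.1 p.2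
            * (w (l i * x) ^ p.1 * w (l' i * y) ^ p.2) := by
      intro i
      rw [← bin_exp hw hψ hne hg _ (red_le _ _ (by omega)) (l i * x) (l' i * y), ← red_pow]
      unfold AA
      rw [← prod_pow_eq_pow_sum]
      refine prod_congr rfl fun j _ => ?_
      unfold vl
      simp only []
      rw [map_pow, ← pow_mul]
    rw [e1, e2, prod_congr rfl fun i _ => e3 i, Finset.prod_univ_sum, mul_sum, mul_sum]
    refine sum_congr rfl fun p _ => ?_
    have e4 : ∏ i, (Cb w ψ (red (Fintype.card L - 1) (AA k i)) (p i).1 (p i).2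
            * (w (l i * x) ^ (p i).1 * w (l' i * y) ^ (p i).2))
        = (∏ i, (Cb w ψ (red (Fintype.card L - 1) (AA k i)) (p i).1 (p i).2
            * (w (l i) ^ (p i).1 * w (l' i) ^ (p i).2)))
          * (w x ^ (∑ i, (p i).1) * w y ^ (∑ i, (p i).2)) := by
      rw [← prod_pow_eq_pow_sum, ← prod_pow_eq_pow_sum, ← prod_mul_distrib, ← prod_mul_distrib]
      refine prod_congr rfl fun i _ => ?_
      rw [map_mul, map_mul, mul_pow, mul_pow]
      ring
    rw [e4, pow_add, pow_add]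
    ring
  rw [mul_sum, sum_congr rfl fun x _ => mul_sum _ _ _,
    sum_congr rfl fun x _ => sum_congr rfl fun y _ => h1 x y]
  rw [sum_congr rfl fun x _ => sum_comm, sum_comm]
  refine sum_congr rfl fun k _ => ?_
  rw [sum_congr rfl fun x _ => sum_comm, sum_comm]
  refine sum_congr rfl fun p _ => ?_
  unfold T2
  rw [sum_mul_sum, ← mul_assoc, mul_sum]
  refine sum_congr rfl fun x _ => ?_
  rw [mul_sum]

end

end Pool.Agent.K9h16.LD
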