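import Pool.Agent.K9h16.TG.Est

/-!
The binomial theorem for powers of the Teichmueller character.
-/

set_option autoImplicit false

namespace Pool.Agent.K9h16.LD

open Finset Polynomial Pool.Agent.W528.HA Pool.Agent.W528.HB Pool.Agent.W528.HD
open Pool.Agent.K9h16.TG

section

variable {c : ℕ} [Fact c.Prime] {L : Type} [Field L] [Fintype L]

open Classical in
/-- the coefficients -/
noncomputable def Cb (w : MulChar L (PadicAlgCl c)) (ψ : AddChar L (PadicAlgCl c)) (a k k' : ℕ) :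
    PadicAlgCl c :=
  if a = 0 then (if k = 0 ∧ k' = 0 then 1 else 0)
  else if a = Fintype.card L - 1 then
    (if (k = 0 ∧ k' = 0) ∨ ¬ (Fintype.card L - 1) ∣ k + k' then 0 else
      - ((((Fintype.card L : ℕ) : PadicAlgCl c) - 1) / ((Fintype.card L : ℕ) : PadicAlgCl c)
        * (G w ψ k * G w ψ k')))
  else (if k + k' ≡ a [MOD Fintype.card L - 1] then
      (((Fintype.card L : ℕ) : PadicAlgCl c) - 1) * (G w ψ k * G w ψ k') / gaussSum (w ^ a)⁻¹ ψ
    else 0)

variable {w : MulChar L (PadicAlgCl c)} {ψ : AddChar L (PadicAlgCl c)} {F : ℕ}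

lemma sum_chi_eq (B : ℕ) (hB0 : 0 < B) (hB : B < Fintype.card L - 1)
    (K : ℕ) (h : K ≡ B [MOD Fintype.card L - 1]) :
    ∑ u : L, (w ^ B)⁻¹ u * w u ^ K = ((Fintype.card L : ℕ) : PadicAlgCl c) - 1 := by
  classical
  have h2 := Fintype.one_lt_card (α := L)
  have h1 : ∀ u : L, (w ^ B)⁻¹ u * w u ^ K = if u = 0 then 0 else 1 := by
    intro u
    by_cases hu : u = 0
    · subst hu
      rw [MulChar.map_zero, zero_mul, if_pos rfl]
    · rw [if_neg hu, MulChar.inv_apply_eq_inv, Ring.inverse_eq_inv, pow_apply w B hu]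
      have h3 : w u ^ K = w u ^ B := by
        have h4 := w_pow_card w hu
        rw [← Nat.mod_add_div K (Fintype.card L - 1), ← Nat.mod_add_div B (Fintype.card L - 1),
          pow_add, pow_add, pow_mul, pow_mul, h4, one_pow, one_pow, h]
      rw [h3, inv_mul_cancel₀ (pow_ne_zero _ (w_ne w hu))]
  rw [sum_congr rfl fun u _ => h1 u, sum_ite, sum_const_zero, zero_add, sum_const]
  have h5 : (univ.filter fun u : L => ¬ u = 0).card = Fintype.card L - 1 := by
    rw [filter_not, filter_eq' univ (0 : L), if_pos (mem_univ _), card_univ_diff, card_singleton]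
  rw [h5, nsmul_eq_mul, mul_one, Nat.cast_sub (by omega), Nat.cast_one]

lemma sum_w_dvd (A : ℕ) (hA : 0 < A) (h : (Fintype.card L - 1) ∣ A) :
    ∑ x : L, w x ^ A = ((Fintype.card L : ℕ) : PadicAlgCl c) - 1 := by
  classical
  have h2 := Fintype.one_lt_card (α := L)
  have h1 : ∀ u : L, w u ^ A = if u = 0 then 0 else 1 := by
    intro u
    by_cases hu : u = 0
    · subst hu
      rw [MulChar.map_zero, zero_pow (by omega), if_pos rfl]
    · rw [if_neg hu]
      obtain ⟨m, rfl⟩ := h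
      rw [pow_mul, w_pow_card w hu, one_pow]
  rw [sum_congr rfl fun u _ => h1 u, sum_ite, sum_const_zero, zero_add, sum_const]
  have h5 : (univ.filter fun u : L => ¬ u = 0).card = Fintype.card L - 1 := by
    rw [filter_not, filter_eq' univ (0 : L), if_pos (mem_univ _), card_univ_diff, card_singleton]
  rw [h5, nsmul_eq_mul, mul_one, Nat.cast_sub (by omega), Nat.cast_one]

lemma G_zero : G w ψ 0 = 1 := by
  unfold G
  rw [if_pos rfl]

/-- the binomial theorem -/
theorem bin_exp (hinj : Function.Injective w) (hψ : ψ.IsPrimitive)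
    (hne : ∀ k, 0 < k → k < Fintype.card L - 1 → w ^ k ≠ 1)
    (hg : ∀ k, 0 < k → k < Fintype.card L - 1 → gaussSum (w ^ k)⁻¹ ψ ≠ 0)
    (a : ℕ) (ha : a ≤ Fintype.card L - 1) (v₁ v₂ : L) :
    w (v₁ + v₂) ^ a = ∑ p ∈ range (Fintype.card L) ×ˢ range (Fintype.card L),
      Cb w ψ a p.1 p.2 * (w v₁ ^ p.1 * w v₂ ^ p.2) := by
  classical
  have h2 := Fintype.one_lt_card (α := L)
  have hq0 : ((Fintype.card L : ℕ) : PadicAlgCl c) ≠ 0 := by
    exact_mod_cast (by omega : Fintype.card L ≠ 0)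
  have hexp : ∀ t : L, ψ (t * (v₁ + v₂)) = ∑ p ∈ range (Fintype.card L) ×ˢ range (Fintype.card L),
      (G w ψ p.1 * G w ψ p.2 * (w v₁ ^ p.1 * w v₂ ^ p.2)) * w t ^ (p.1 + p.2) := by
    intro t
    rw [mul_add, AddChar.map_add_eq_mul, psi_exp w hinj ψ hψ (t * v₁),
      psi_exp w hinj ψ hψ (t * v₂), sum_mul_sum, sum_product]
    refine sum_congr rfl fun k _ => sum_congr rfl fun k' _ => ?_
    rw [map_mul, map_mul, mul_pow, mul_pow]
    ring
  rcases Nat.eq_zero_or_pos a with ha0 | ha0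
  · subst ha0
    rw [pow_zero, sum_eq_single (0, 0)]
    · simp [Cb]
    · rintro ⟨k, k'⟩ _ hp
      unfold Cb
      rw [if_pos rfl, if_neg, zero_mul]
      rintro ⟨h3, h4⟩
      exact hp (Prod.ext h3 h4)
    · intro h
      exact absurd (mem_product.mpr ⟨mem_range.mpr (by omega), mem_range.mpr (by omega)⟩) h
  rcases Nat.lt_or_ge a (Fintype.card L - 1) with hlt | hge
  · have h3 := Pool.Agent.W800.HA.GD.one (w ^ a) ψ (hne a ha0 hlt) (v₁ + v₂)
    rw [MulChar.pow_apply' w (by omega)] at h3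
    have h4 : ∑ t : L, (w ^ a)⁻¹ t * ψ (t * (v₁ + v₂))
        = ∑ p ∈ range (Fintype.card L) ×ˢ range (Fintype.card L),
          (G w ψ p.1 * G w ψ p.2 * (w v₁ ^ p.1 * w v₂ ^ p.2)) *
            ∑ t : L, (w ^ a)⁻¹ t * w t ^ (p.1 + p.2) := by
      rw [sum_congr rfl fun t _ => by rw [hexp t, mul_sum], sum_comm]
      refine sum_congr rfl fun p _ => ?_
      rw [mul_sum]
      refine sum_congr rfl fun t _ => ?_
      ring
    rw [h4] at h3
    have hg0 := hg a ha0 hlt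
    have h5 : w (v₁ + v₂) ^ a = (∑ p ∈ range (Fintype.card L) ×ˢ range (Fintype.card L),
          (G w ψ p.1 * G w ψ p.2 * (w v₁ ^ p.1 * w v₂ ^ p.2)) *
            ∑ t : L, (w ^ a)⁻¹ t * w t ^ (p.1 + p.2)) / gaussSum (w ^ a)⁻¹ ψ := by
      rw [← h3, mul_div_cancel_left₀ _ hg0]
    rw [h5, sum_div]
    refine sum_congr rfl fun p _ => ?_
    unfold Cb
    rw [if_neg (by omega), if_neg (by omega)]
    split_ifs with h6
    · rw [sum_chi_eq a ha0 hlt _ h6]
      ring
    · rw [sum_chi hinj a ha0 hlt _ h6]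
      ring
  · have haQ : a = Fintype.card L - 1 := by omega
    have h3 := AddChar.sum_mulShift (ψ := ψ) (v₁ + v₂) hψ
    have h4 : ∑ t : L, ψ (t * (v₁ + v₂))
        = ∑ p ∈ range (Fintype.card L) ×ˢ range (Fintype.card L),
          (G w ψ p.1 * G w ψ p.2 * (w v₁ ^ p.1 * w v₂ ^ p.2)) * ∑ t : L, w t ^ (p.1 + p.2) := by
      rw [sum_congr rfl fun t _ => hexp t, sum_comm]
      refine sum_congr rfl fun p _ => ?_
      rw [mul_sum]
    rw [h4] at h3
    have hmem : ((0, 0) : ℕ × ℕ) ∈ range (Fintype.card L) ×ˢ range (Fintype.card L) :=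
      mem_product.mpr ⟨mem_range.mpr (by omega), mem_range.mpr (by omega)⟩
    rw [← add_sum_erase _ _ hmem] at h3
    have h5 : (G w ψ 0 * G w ψ 0 * (w v₁ ^ 0 * w v₂ ^ 0)) * ∑ t : L, w t ^ (0 + 0)
        = ((Fintype.card L : ℕ) : PadicAlgCl c) := by
      rw [G_zero]
      simp
    rw [h5] at h3
    have h6 : w (v₁ + v₂) ^ a = 1 - (if v₁ + v₂ = 0 then 1 else 0) := by
      by_cases hv : v₁ + v₂ = 0
      · rw [hv, MulChar.map_zero, zero_pow (by omega), if_pos rfl, sub_self]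
      · rw [if_neg hv, haQ, w_pow_card w hv, sub_zero]
    have h7 : (if v₁ + v₂ = 0 then (1 : PadicAlgCl c) else 0)
        = (((if v₁ + v₂ = 0 then Fintype.card L else 0 : ℕ)) : PadicAlgCl c)
          / ((Fintype.card L : ℕ) : PadicAlgCl c) := by
      split_ifs
      · rw [div_self hq0]
      · simp
    rw [h6, h7, ← h3, add_div, div_self hq0, ← sub_sub, sub_self, zero_sub, ← neg_div,
      ← add_sum_erase _ _ hmem]
    have h8 : Cb w ψ a ((0, 0) : ℕ × ℕ).1 ((0, 0) : ℕ × ℕ).2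
        * (w v₁ ^ ((0, 0) : ℕ × ℕ).1 * w v₂ ^ ((0, 0) : ℕ × ℕ).2) = 0 := by
      unfold Cb
      rw [if_neg (by omega), if_pos haQ, if_pos (Or.inl ⟨rfl, rfl⟩), zero_mul]
    rw [h8, zero_add, ← sum_neg_distrib, sum_div]
    refine sum_congr rfl fun p hp => ?_
    rw [mem_erase] at hp
    have hp0 : ¬ (p.1 = 0 ∧ p.2 = 0) := fun h => hp.1 (Prod.ext h.1 h.2)
    unfold Cb
    rw [if_neg (by omega), if_pos haQ]
    by_cases h9 : (Fintype.card L - 1) ∣ p.1 + p.2
    · rw [if_neg (by rintro (h | h); exacts [hp0 h, h h9]), sum_w_dvd _ (by omega) h9]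
      ring
    · rw [if_pos (Or.inr h9), sum_w_pow hinj _ (by omega) h9]
      ring

lemma Cb_ne (a k k' : ℕ) (ha : a ≤ Fintype.card L - 1) (h : Cb w ψ a k k' ≠ 0) :
    k + k' ≡ a [MOD Fintype.card L - 1] ∧ (a ≠ 0 → k + k' ≠ 0) := by
  have h2 := Fintype.one_lt_card (α := L)
  unfold Cb at h
  split_ifs at h with h3 h4 h5 h6 h7
  · rw [h3, h4.1, h4.2]
    exact ⟨rfl, fun h => absurd rfl h⟩
  · exact absurd rfl h
  · exact absurd rfl h
  · push Not at h6
    refine ⟨?_, fun _ h8 => ?_⟩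
    · rw [h5]
      have h9 : Fintype.card L - 1 ≡ 0 [MOD Fintype.card L - 1] := by simp [Nat.ModEq]
      exact ((Nat.modEq_zero_iff_dvd).mpr h6.2).trans h9.symm
    · exact h6.1 (by omega) (by omega)
  · refine ⟨h7, fun _ h8 => ?_⟩
    rw [h8] at h7
    have h9 := (Nat.modEq_zero_iff_dvd).mp h7.symm
    have := Nat.le_of_dvd (by omega) h9
    omega
  · exact absurd rfl h

variable [CharP L c]

lemma Cb_le (hD : Dat w ψ F) (a k k' : ℕ) (ha : a ≤ Fintype.card L - 1)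
    (hk : k < Fintype.card L) (hk' : k' < Fintype.card L) :
    ‖Cb w ψ a k k'‖ ^ (Fintype.card L - 1)
        * ‖((c : ℕ) : PadicAlgCl c)‖ ^ (tau c F (Fintype.card L - 1) a)
      ≤ ‖((c : ℕ) : PadicAlgCl c)‖ ^ (tau c F (Fintype.card L - 1) k
        + tau c F (Fintype.card L - 1) k') := by
  have h2 := Fintype.one_lt_card (α := L)
  have hρ : 0 < ‖((c : ℕ) : PadicAlgCl c)‖ := rho_pos
  have hz : (0 : PadicAlgCl c) = 0 := rfl
  have hG : ‖G w ψ k * G w ψ k'‖ ^ (Fintype.card L - 1)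
      ≤ ‖((c : ℕ) : PadicAlgCl c)‖ ^ (tau c F (Fintype.card L - 1) k
        + tau c F (Fintype.card L - 1) k') := by
    rw [norm_mul, mul_pow, pow_add]
    exact mul_le_mul (G_le hD k hk) (G_le hD k' hk') (by positivity) (by positivity)
  have hzero : ‖(0 : PadicAlgCl c)‖ ^ (Fintype.card L - 1)
        * ‖((c : ℕ) : PadicAlgCl c)‖ ^ (tau c F (Fintype.card L - 1) a)
      ≤ ‖((c : ℕ) : PadicAlgCl c)‖ ^ (tau c F (Fintype.card L - 1) k
        + tau c F (Fintype.card L - 1) k') := by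
    rw [norm_zero, zero_pow (by omega), zero_mul]
    positivity
  unfold Cb
  split_ifs with h3 h4 h5 h6 h7
  · rw [h3, h4.1, h4.2, tau_zero c F _ (by omega)]
    simp
  · exact hzero
  · exact hzero
  · rw [h5, tau_top, norm_neg, norm_mul, norm_div, norm_card_sub_one, mul_pow, div_pow, one_pow,
      card_norm hD, ← pow_mul]
    have h8 : (1 / ‖((c : ℕ) : PadicAlgCl c)‖ ^ (F * (Fintype.card L - 1))
        * ‖G w ψ k * G w ψ k'‖ ^ (Fintype.card L - 1))
        * ‖((c : ℕ) : PadicAlgCl c)‖ ^ (F * (Fintype.card L - 1))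
        = ‖G w ψ k * G w ψ k'‖ ^ (Fintype.card L - 1) := by
      have : ‖((c : ℕ) : PadicAlgCl c)‖ ^ (F * (Fintype.card L - 1)) ≠ 0 := (pow_pos hρ _).ne'
      field_simp
    rw [h8]
    exact hG
  · have hlt : a < Fintype.card L - 1 := by omega
    have hge := gauss_ge hD a hlt
    have hg0 : 0 < ‖gaussSum (w ^ a)⁻¹ ψ‖ ^ (Fintype.card L - 1) :=
      lt_of_lt_of_le (pow_pos hρ _) hge
    rw [norm_div, norm_mul, norm_card_sub_one, one_mul, div_pow]
    calc ‖G w ψ k * G w ψ k'‖ ^ (Fintype.card L - 1)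
          / ‖gaussSum (w ^ a)⁻¹ ψ‖ ^ (Fintype.card L - 1)
          * ‖((c : ℕ) : PadicAlgCl c)‖ ^ (tau c F (Fintype.card L - 1) a)
        ≤ ‖G w ψ k * G w ψ k'‖ ^ (Fintype.card L - 1)
          / ‖gaussSum (w ^ a)⁻¹ ψ‖ ^ (Fintype.card L - 1)
          * ‖gaussSum (w ^ a)⁻¹ ψ‖ ^ (Fintype.card L - 1) :=
          mul_le_mul_of_nonneg_left hge (by positivity)
      _ = ‖G w ψ k * G w ψ k'‖ ^ (Fintype.card L - 1) := div_mul_cancel₀ _ hg0.ne'
      _ ≤ _ := hG
  · exact hzero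

lemma gauss_ne (hD : Dat w ψ F) (k : ℕ) (hk : k < Fintype.card L - 1) :
    gaussSum (w ^ k)⁻¹ ψ ≠ 0 := by
  intro h
  have h2 := Fintype.one_lt_card (α := L)
  have h1 := gauss_ge hD k hk
  rw [h, norm_zero, zero_pow (by omega)] at h1
  exact absurd h1 (not_le.mpr (pow_pos rho_pos _))

end

end Pool.Agent.K9h16.LD
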