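import Pool.Agent.K9h16.LD.Big

/-!
The estimate of the sums.
-/

set_option autoImplicit false

namespace Pool.Agent.K9h16.LD

open Finset Polynomial Pool.Agent.W528.HA Pool.Agent.W528.HB Pool.Agent.W528.HD
open Pool.Agent.K9h16.TG

section

variable {c : ℕ} [Fact c.Prime] {L : Type} [Field L] [Fintype L] [CharP L c]
variable {I : Type} [Fintype I] [DecidableEq I] {D : ℕ}
variable {w : MulChar L (PadicAlgCl c)} {ψ : AddChar L (PadicAlgCl c)} {F : ℕ}

lemma sum_st {M : Type} [AddCommMonoid M] (f : St I D → M) :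
    ∑ s, f s = ∑ i, (f (Sum.inl (Sum.inl i)) + f (Sum.inl (Sum.inr i))
      + ∑ k : Fin (D + 1), f (Sum.inr (i, k))) := by
  rw [Fintype.sum_sum_type, Fintype.sum_sum_type, Fintype.sum_prod_type, sum_add_distrib,
    sum_add_distrib]

lemma KK_eq (k : St I D → ℕ) (i : I) :
    KK (sx I D) k i = k (Sum.inl (Sum.inl i)) + k (Sum.inl (Sum.inr i))
      + ∑ j : Fin (D + 1), k (Sum.inr (i, j)) := by
  unfold KK
  exact sum_sx k i

theorem t2_le (hD : Dat w ψ F) {N : ℕ} (hN : N ∣ c - 1) (hc1 : 1 ≤ c) (hNQ : N ∣ Fintype.card L - 1)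
    (hN0 : 0 < N) (b : I → ℕ) (hb : ∀ i, b i < N) (hb0 : ∀ i, 0 < b i) {d : I → ℕ}
    (hd : ∀ i, d i ≤ D) (hDd : (D + 1) * ∑ i, max 1 (d i) * b i < N)
    (m m' l l' : I → L) (f : I → L[X]) (hf : ∀ i, (f i).natDegree ≤ d i)
    (k : St I D → ℕ) (hk : ∀ s, k s < Fintype.card L)
    (p : I → ℕ × ℕ) (hp : ∀ i, (p i).1 < Fintype.card L ∧ (p i).2 < Fintype.card L) :
    ‖T2 w ψ m m' l l' f (fun i => w ^ (b i * ((Fintype.card L - 1) / N))) k p‖
        ^ (Fintype.card L - 1)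
      ≤ ‖((c : ℕ) : PadicAlgCl c)‖
        ^ (∑ i, tau c F (Fintype.card L - 1) (b i * ((Fintype.card L - 1) / N))
          + F * (2 * (Fintype.card L - 1))) := by
  have h2 := Fintype.one_lt_card (α := L)
  have hρ : 0 < ‖((c : ℕ) : PadicAlgCl c)‖ := rho_pos
  have hρ1 : ‖((c : ℕ) : PadicAlgCl c)‖ ≤ 1 := norm_natCast_le c
  set Q := Fintype.card L - 1 with hQ
  have hQ0 : 0 < Q := by omega
  have hQN0 : 0 < Q / N := Nat.div_pos (Nat.le_of_dvd hQ0 hNQ) hN0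
  have hBlt : ∀ i, b i * (Q / N) < Q := by
    intro i
    calc b i * (Q / N) < N * (Q / N) := Nat.mul_lt_mul_of_pos_right (hb i) hQN0
      _ = Q := Nat.mul_div_cancel' hNQ
  have hB0 : ∀ i, 0 < b i * (Q / N) := fun i => Nat.mul_pos (hb0 i) hQN0
  by_cases h0 : T2 w ψ m m' l l' f (fun i => w ^ (b i * (Q / N))) k p = 0
  · rw [h0, norm_zero, zero_pow (by omega)]
    positivity
  -- the conditions
  have h0' := h0
  unfold T2 at h0
  obtain ⟨n1, h0⟩ := mul_ne_zero_iff.mp h0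
  obtain ⟨n2, h0⟩ := mul_ne_zero_iff.mp h0
  obtain ⟨n3, n4⟩ := mul_ne_zero_iff.mp h0
  unfold C1 at n1
  obtain ⟨n5, n6⟩ := mul_ne_zero_iff.mp n1
  have c1 : ∀ i, KK (sx I D) k i ≡ b i * (Q / N) [MOD Q] := by
    intro i
    by_contra hcon
    exact (prod_ne_zero_iff.mp n6) i (mem_univ i)
      (sum_chi hD.inj (b i * (Q / N)) (hB0 i) (hBlt i) _ hcon)
  have c2 : ∀ s, co D m m' f s = 0 → k s = 0 := by
    intro s hs
    by_contra hcon
    have := (prod_ne_zero_iff.mp n5) s (mem_univ s)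
    rw [hs, MulChar.map_zero, zero_pow hcon, mul_zero] at this
    exact this rfl
  have c3 : ∀ i, Cb w ψ (red Q (AA k i)) (p i).1 (p i).2 ≠ 0 := fun i =>
    (mul_ne_zero_iff.mp ((prod_ne_zero_iff.mp n2) i (mem_univ i))).1
  have c4 : Q ∣ ∑ i, k (Sum.inl (Sum.inl i)) + ∑ i, (p i).1 := by
    by_contra hcon
    exact n3 (sum_w_pow hD.inj _ (Nat.pos_of_ne_zero fun h => hcon (by rw [h]; exact dvd_zero _))
      hcon)
  have c5 : Q ∣ ∑ i, k (Sum.inl (Sum.inr i)) + ∑ i, (p i).2 := by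
    by_contra hcon
    exact n4 (sum_w_pow hD.inj _ (Nat.pos_of_ne_zero fun h => hcon (by rw [h]; exact dvd_zero _))
      hcon)
  have H : Adm Q (fun i => b i * (Q / N)) d (fun i => k (Sum.inl (Sum.inl i)))
      (fun i => k (Sum.inl (Sum.inr i))) (fun i (j : Fin (D + 1)) => k (Sum.inr (i, j)))
      (fun i => red Q (AA k i)) (fun i => (p i).1) (fun i => (p i).2) :=
    { lx := fun i => by have := hk (Sum.inl (Sum.inl i)); omega
      ly := fun i => by have := hk (Sum.inl (Sum.inr i)); omega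
      lh := fun i j => by have := hk (Sum.inr (i, j)); omega
      la := fun i => red_le _ _ hQ0
      lp := fun i => by have := (hp i).1; omega
      lp' := fun i => by have := (hp i).2; omega
      vh := fun i j hj => c2 (Sum.inr (i, j)) (coeff_eq_zero_of_natDegree_lt
        (lt_of_le_of_lt (hf i) hj))
      cB := fun i => by
        have := c1 i
        rw [KK_eq] at this
        exact this
      ca := fun i => red_modEq _ _
      za := fun i h => by
        have : AA k i = 0 := h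
        rw [this, red_zero]
      cp := fun i => (Cb_ne _ _ _ (red_le _ _ hQ0) (c3 i)).1
      zp := fun i => (Cb_ne _ _ _ (red_le _ _ hQ0) (c3 i)).2
      dx := c4
      dy := c5 }
  have key := comb_tau F hQ0 (cop hD.card hD.pos) hN hc1 hNQ hN0 b hb hd hDd H
  -- the norms
  have e1 : ‖∏ s, (G w ψ (k s) * w (co D m m' f s) ^ k s)‖ ^ Q
      ≤ ‖((c : ℕ) : PadicAlgCl c)‖ ^ (∑ s, tau c F Q (k s)) := by
    rw [norm_prod, ← prod_pow, ← prod_pow_eq_pow_sum]
    apply prod_le_prod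
    · intro s _
      positivity
    · intro s _
      rw [norm_mul, mul_pow]
      refine le_trans (mul_le_of_le_one_right (by positivity) ?_) (G_le hD (k s) (hk s))
      exact pow_le_one₀ (norm_nonneg _) (w_norm w _ _)
  have e2 : ‖∏ i, ∑ u : L, (w ^ (b i * (Q / N)))⁻¹ u * w u ^ KK (sx I D) k i‖ ^ Q ≤ 1 := by
    apply pow_le_one₀ (norm_nonneg _)
    rw [norm_prod]
    refine prod_le_one (fun i _ => norm_nonneg _) fun i _ => ?_
    refine norm_sum_le _ _ 1 zero_le_one fun u _ => ?_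
    rw [norm_mul]
    exact mul_le_one₀ (mulChar_norm_le _ _) (norm_nonneg _) (w_norm w _ _)
  have e3 := norm_sum_w hD (∑ i, k (Sum.inl (Sum.inl i)) + ∑ i, (p i).1)
  have e4 := norm_sum_w hD (∑ i, k (Sum.inl (Sum.inr i)) + ∑ i, (p i).2)
  have e5 : ‖∏ i, (Cb w ψ (red Q (AA k i)) (p i).1 (p i).2
      * (w (l i) ^ (p i).1 * w (l' i) ^ (p i).2))‖ ^ Q
        * ‖((c : ℕ) : PadicAlgCl c)‖ ^ (∑ i, tau c F Q (red Q (AA k i)))
      ≤ ‖((c : ℕ) : PadicAlgCl c)‖ ^ (∑ i, (tau c F Q (p i).1 + tau c F Q (p i).2)) := by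
    rw [norm_prod, ← prod_pow, ← prod_pow_eq_pow_sum, ← prod_pow_eq_pow_sum, ← prod_mul_distrib]
    apply prod_le_prod
    · intro s _
      positivity
    · intro i _
      have h5 := Cb_le hD (red Q (AA k i)) (p i).1 (p i).2 (red_le _ _ hQ0) (hp i).1 (hp i).2
      refine le_trans ?_ h5
      rw [norm_mul, mul_pow]
      refine mul_le_mul_of_nonneg_right ?_ (by positivity)
      refine mul_le_of_le_one_right (by positivity) ?_
      apply pow_le_one₀ (norm_nonneg _)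
      rw [norm_mul]
      exact mul_le_one₀ (w_norm w _ _) (norm_nonneg _) (w_norm w _ _)
  refine le_of_mul_le_mul_right (a := ‖((c : ℕ) : PadicAlgCl c)‖
    ^ (∑ i, tau c F Q (red Q (AA k i)))) ?_ (pow_pos hρ _)
  have hkey2 : ‖((c : ℕ) : PadicAlgCl c)‖ ^ ((∑ s, tau c F Q (k s)
        + ∑ i, (tau c F Q (p i).1 + tau c F Q (p i).2))
      + (F * Q * z0 (∑ i, k (Sum.inl (Sum.inl i)) + ∑ i, (p i).1)
        + F * Q * z0 (∑ i, k (Sum.inl (Sum.inr i)) + ∑ i, (p i).2)))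
      ≤ ‖((c : ℕ) : PadicAlgCl c)‖ ^ (∑ i, tau c F Q (b i * (Q / N)) + F * (2 * Q))
        * ‖((c : ℕ) : PadicAlgCl c)‖ ^ (∑ i, tau c F Q (red Q (AA k i))) := by
    rw [← pow_add]
    apply pow_le_pow_of_le_one hρ.le hρ1
    rw [sum_st (f := fun s => tau c F Q (k s))]
    calc ∑ i, tau c F Q (b i * (Q / N)) + F * (2 * Q) + ∑ i, tau c F Q (red Q (AA k i))
        = (∑ i, tau c F Q (b i * (Q / N)) + ∑ i, tau c F Q (red Q (AA k i))) + F * (2 * Q) := by
          ring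
      _ ≤ _ := key
  refine le_trans ?_ hkey2
  unfold T2 C1
  rw [norm_mul, norm_mul, norm_mul, norm_mul, mul_pow, mul_pow, mul_pow, mul_pow, pow_add, pow_add,
    pow_add]
  calc _ = ((‖∏ s, (G w ψ (k s) * w (co D m m' f s) ^ k s)‖ ^ Q
          * ‖∏ i, ∑ u : L, (w ^ (b i * (Q / N)))⁻¹ u * w u ^ KK (sx I D) k i‖ ^ Q)
        * (‖∏ i, (Cb w ψ (red Q (AA k i)) (p i).1 (p i).2
          * (w (l i) ^ (p i).1 * w (l' i) ^ (p i).2))‖ ^ Q
          * ‖((c : ℕ) : PadicAlgCl c)‖ ^ (∑ i, tau c F Q (red Q (AA k i)))))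
        * (‖∑ x : L, w x ^ (∑ i, k (Sum.inl (Sum.inl i)) + ∑ i, (p i).1)‖ ^ Q
          * ‖∑ y : L, w y ^ (∑ i, k (Sum.inl (Sum.inr i)) + ∑ i, (p i).2)‖ ^ Q) := by ring
    _ ≤ _ := by
      refine mul_le_mul ?_ (mul_le_mul e3 e4 (by positivity) (by positivity)) (by positivity)
        (by positivity)
      refine mul_le_mul ?_ e5 (by positivity) (by positivity)
      exact le_trans (mul_le_of_le_one_right (by positivity) e2) e1

theorem est (hD : Dat w ψ F) {N : ℕ} (hN : N ∣ c - 1) (hc1 : 1 ≤ c) (hNQ : N ∣ Fintype.card L - 1)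
    (hN0 : 0 < N) (b : I → ℕ) (hb : ∀ i, b i < N) (hb0 : ∀ i, 0 < b i) {d : I → ℕ}
    (hd : ∀ i, d i ≤ D) (hDd : (D + 1) * ∑ i, max 1 (d i) * b i < N)
    (m m' l l' : I → L) (f : I → L[X]) (hf : ∀ i, (f i).natDegree ≤ d i) :
    ‖∑ x : L, ∑ y : L, ∏ i, (w ^ (b i * ((Fintype.card L - 1) / N))) (PP m m' l l' f i x y)‖
        ≤ ‖((Fintype.card L : ℕ) : PadicAlgCl c)‖ ^ 2 := by
  have h2 := Fintype.one_lt_card (α := L)
  have hρ : 0 < ‖((c : ℕ) : PadicAlgCl c)‖ := rho_pos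
  set Q := Fintype.card L - 1 with hQ
  have hQ0 : 0 < Q := by omega
  have hQN0 : 0 < Q / N := Nat.div_pos (Nat.le_of_dvd hQ0 hNQ) hN0
  have hBlt : ∀ i, b i * (Q / N) < Q := by
    intro i
    calc b i * (Q / N) < N * (Q / N) := Nat.mul_lt_mul_of_pos_right (hb i) hQN0
      _ = Q := Nat.mul_div_cancel' hNQ
  have hB0 : ∀ i, 0 < b i * (Q / N) := fun i => Nat.mul_pos (hb0 i) hQN0
  have h1 := big (D := D) w ψ hD.inj hD.prim (fun k hk hk2 => w_pow_ne hD hk hk2)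
    (fun k _ hk2 => gauss_ne hD k hk2) m m' l l' f (fun i => (hf i).trans (hd i))
    (fun i => w ^ (b i * (Q / N))) (fun i => w_pow_ne hD (hB0 i) (hBlt i))
  have h3 : ‖∑ k ∈ Fintype.piFinset (fun _ : St I D => range (Fintype.card L)),
        ∑ p ∈ Fintype.piFinset (fun _ : I => range (Fintype.card L) ×ˢ range (Fintype.card L)),
          T2 w ψ m m' l l' f (fun i => w ^ (b i * (Q / N))) k p‖ ^ Q
      ≤ ‖((c : ℕ) : PadicAlgCl c)‖ ^ (∑ i, tau c F Q (b i * (Q / N)) + F * (2 * Q)) := by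
    apply Pool.Agent.W108.HD.ONE.sum_pow_le _ _ (by omega) (by positivity)
    intro k hk
    rw [Fintype.mem_piFinset] at hk
    apply Pool.Agent.W108.HD.ONE.sum_pow_le _ _ (by omega) (by positivity)
    intro p hp
    rw [Fintype.mem_piFinset] at hp
    exact t2_le hD hN hc1 hNQ hN0 b hb hb0 hd hDd m m' l l' f hf k
      (fun s => mem_range.mp (hk s)) p (fun i => by
        have := mem_product.mp (hp i)
        exact ⟨mem_range.mp this.1, mem_range.mp this.2⟩)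
  rw [← h1, norm_mul, mul_pow, norm_prod, ← prod_pow, pow_add, ← prod_pow_eq_pow_sum] at h3
  have h4 : ∏ i, ‖((c : ℕ) : PadicAlgCl c)‖ ^ tau c F Q (b i * (Q / N))
      ≤ ∏ i, ‖gaussSum (w ^ (b i * (Q / N)))⁻¹ ψ‖ ^ Q := by
    apply prod_le_prod
    · intro i _
      positivity
    · intro i _
      exact gauss_ge hD _ (hBlt i)
  have h5 : 0 < ∏ i, ‖((c : ℕ) : PadicAlgCl c)‖ ^ tau c F Q (b i * (Q / N)) :=
    prod_pos fun i _ => pow_pos hρ _
  have h6 : ‖∑ x : L, ∑ y : L, ∏ i, (w ^ (b i * (Q / N))) (PP m m' l l' f i x y)‖ ^ Q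
      ≤ ‖((c : ℕ) : PadicAlgCl c)‖ ^ (F * (2 * Q)) := by
    refine le_of_mul_le_mul_left ?_ h5
    refine le_trans ?_ h3
    exact mul_le_mul_of_nonneg_right h4 (by positivity)
  have hρ' : ‖((c : ℕ) : PadicAlgCl c)‖ ^ (F * (2 * Q))
      = (‖((Fintype.card L : ℕ) : PadicAlgCl c)‖ ^ 2) ^ Q := by
    rw [card_norm hD, ← pow_mul, ← pow_mul]
  rw [hρ'] at h6
  exact le_of_pow_le_pow_left₀ (by omega) (by positivity) h6

end

end Pool.Agent.K9h16.LD
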