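import Pool.Agent.K9h16.LD.Ar

/-!
The number of points of the coverings.
-/

set_option autoImplicit false

namespace Pool.Agent.K9h16.LD

open Finset Polynomial Pool.Agent.W528.HA Pool.Agent.W528.HC
open Pool.Agent.W125.HC.PC

section

variable {L : Type} [Field L] [Fintype L] {s : ℕ} {n : Fin s → ℕ}

/-- the number of solutions of a system of Kummer equations -/
theorem ncard_pi (hs : 0 < s) (hn : ∀ t, 2 ≤ n t) {z : L} (hz : IsPrimitiveRoot z (∏ t, n t))
    {E : Type} [Field E] [CharZero E] {μ : E} (hμ : IsPrimitiveRoot μ (∏ t, n t)) (g : Fin s → L) :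
    ((Set.ncard {w : Fin s → L | ∀ t, w t ^ n t = g t} : ℕ) : E)
      = ∑ j : (t : Fin s) → Fin (n t), kv (∏ t, n t) z μ
        ((∏ t, g t ^ ((∏ t, n t) / n t * (j t : ℕ))) ^ ((Fintype.card L - 1) / ∏ t, n t)) := by
  classical
  have hPR : PR := Pool.Agent.W924.HC.PR.main
  have hMU : MU := mu_main
  have hN := pos_N hn
  have hN2 : 2 ≤ ∏ t, n t := by
    have t0 : Fin s := ⟨0, hs⟩
    exact le_trans (hn t0) (Nat.le_of_dvd hN (dvd_prod_of_mem n (mem_univ t0)))
  have hmu := hMU L (∏ t, n t) z hN2 hz E μ hμ.pow_eq_one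
  obtain ⟨W, hW⟩ : ∃ W : L → E, ∀ v, W v =
      kv (∏ t, n t) z μ (v ^ ((Fintype.card L - 1) / (∏ t, n t))) := ⟨_, fun _ => rfl⟩
  have hWm : ∀ v w : L, W (v * w) = W v * W w := by
    intro v w
    rw [hW, hW, hW]
    exact hmu v w
  have hW1 : W 1 = 1 := by
    rw [hW, one_pow, kv_one hN hz]
  have hWp : ∀ v : Fin s → L, W (∏ t, v t) = ∏ t, W (v t) := by
    intro v
    have key : ∀ s' : Finset (Fin s), W (∏ t ∈ s', v t) = ∏ t ∈ s', W (v t) := by
      intro s'
      induction s' using Finset.induction_on with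
      | empty => simpa using hW1
      | insert b s' hb ih => rw [prod_insert hb, prod_insert hb, hWm, ih]
    exact key univ
  have h1 : ∀ t, ((Set.ncard {y : L | y ^ n t = g t} : ℕ) : E)
      = ∑ j : Fin (n t), W (g t ^ ((∏ t, n t) / n t * (j : ℕ))) := by
    intro t
    have hnt := hn t
    have := hPR L (∏ t, n t) (n t) ((∏ t, n t) / n t) z
      (by rw [mul_comm]; exact (div_mul hn t).symm) hz (by omega) (div_pos hn t) E μ hμ (g t)
    have e0 : ∑ j ∈ range (n t), W (g t ^ ((∏ t, n t) / n t * j))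
        = 1 + ∑ j ∈ Ico 1 (n t), W (g t ^ ((∏ t, n t) / n t * j)) := by
      rw [range_eq_Ico, sum_eq_sum_Ico_succ_bot (by omega : 0 < n t), mul_zero, pow_zero, hW1]
    rw [this, Fin.sum_univ_eq_sum_range (fun j => W (g t ^ ((∏ t, n t) / n t * j))), e0]
    simp only [hW]
  have h2 : {w : Fin s → L | ∀ t, w t ^ n t = g t}
      = ((Fintype.piFinset fun t => univ.filter fun y : L => y ^ n t = g t :
        Finset (Fin s → L)) : Set (Fin s → L)) := by
    ext w
    simp [Fintype.mem_piFinset]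
  rw [h2, Set.ncard_coe_finset, Fintype.card_piFinset]
  push_cast
  have h3 : ∀ t, (((univ.filter fun y : L => y ^ n t = g t).card : ℕ) : E)
      = ∑ j : Fin (n t), W (g t ^ ((∏ t, n t) / n t * (j : ℕ))) := by
    intro t
    rw [← h1 t]
    congr 1
    rw [← Set.ncard_coe_finset]
    congr 1
    ext y
    simp
  rw [prod_congr rfl fun t _ => h3 t, Finset.prod_univ_sum, Fintype.piFinset_univ]
  refine sum_congr rfl fun j _ => ?_
  rw [← hWp, hW]

/-- the number of points of the covering -/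
theorem ncard_cov (hs : 0 < s) (hn : ∀ t, 2 ≤ n t) {z : L} (hz : IsPrimitiveRoot z (∏ t, n t))
    {E : Type} [Field E] [CharZero E] {μ : E} (hμ : IsPrimitiveRoot μ (∏ t, n t))
    (g : Fin s → L → L → L) :
    ((Set.ncard {v : L × L × (Fin s → L) | ∀ t, v.2.2 t ^ n t = g t v.1 v.2.1} : ℕ) : E)
      = (Fintype.card L : E) ^ 2 +
      ∑ j : {j : (t : Fin s) → Fin (n t) // ∃ t, (j t : ℕ) ≠ 0}, ∑ x : L, ∑ y : L,
        kv (∏ t, n t) z μ ((∏ t, g t x y ^ ((∏ t, n t) / n t * (j.1 t : ℕ)))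
          ^ ((Fintype.card L - 1) / ∏ t, n t)) := by
  classical
  have hN := pos_N hn
  have h1 : ((Set.ncard {v : L × L × (Fin s → L) | ∀ t, v.2.2 t ^ n t = g t v.1 v.2.1} : ℕ) : E)
      = ∑ x : L, ∑ y : L, ((Set.ncard {w : Fin s → L | ∀ t, w t ^ n t = g t x y} : ℕ) : E) := by
    have h : {v : L × L × (Fin s → L) | ∀ t, v.2.2 t ^ n t = g t v.1 v.2.1} =
        ((univ.filter (fun v : L × L × (Fin s → L) =>
          ∀ t, v.2.2 t ^ n t = g t v.1 v.2.1) : Finset (L × L × (Fin s → L))) :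
          Set (L × L × (Fin s → L))) := by
      ext y; simp
    rw [h, Set.ncard_coe_finset, card_filter, Fintype.sum_prod_type]
    push_cast
    refine sum_congr rfl fun x _ => ?_
    rw [Fintype.sum_prod_type]
    refine sum_congr rfl fun y _ => ?_
    have h' : {w : Fin s → L | ∀ t, w t ^ n t = g t x y} =
        ((univ.filter (fun w : Fin s → L => ∀ t, w t ^ n t = g t x y) : Finset (Fin s → L)) :
          Set (Fin s → L)) := by
      ext y; simp
    rw [h', Set.ncard_coe_finset, card_filter]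
    push_cast
    rfl
  rw [h1, sum_congr rfl fun x _ => sum_congr rfl fun y _ => ncard_pi hs hn hz hμ
    (fun t => g t x y)]
  rw [sum_congr rfl fun x _ => sum_comm, sum_comm]
  have hz0 : ∀ t, 0 < n t := fun t => by have := hn t; omega
  set Tt : ((t : Fin s) → Fin (n t)) → E := fun j => ∑ x : L, ∑ y : L,
        kv (∏ t, n t) z μ ((∏ t, g t x y ^ ((∏ t, n t) / n t * (j t : ℕ)))
          ^ ((Fintype.card L - 1) / ∏ t, n t)) with hTt
  have h2 : ∑ j : (t : Fin s) → Fin (n t), Tt j = ∑ j with (∃ t, (j t : ℕ) ≠ 0), Tt j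
      + ∑ j with ¬ (∃ t, (j t : ℕ) ≠ 0), Tt j := by
    rw [sum_filter_add_sum_filter_not]
  have h3 : ∑ j with ¬ (∃ t, (j t : ℕ) ≠ 0), Tt j = (Fintype.card L : E) ^ 2 := by
    have h4 : (univ.filter fun j : (t : Fin s) → Fin (n t) => ¬ (∃ t, (j t : ℕ) ≠ 0))
        = {fun t => ⟨0, hz0 t⟩} := by
      ext j
      rw [mem_filter, mem_singleton]
      push Not
      refine ⟨fun h => ?_, fun h => ⟨mem_univ _, fun t => ?_⟩⟩
      · funext t
        exact Fin.ext (h.2 t)
      · rw [h]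
    rw [h4, sum_singleton, hTt]
    simp only [mul_zero, pow_zero, prod_const_one, one_pow, kv_one hN hz, sum_const, card_univ,
      nsmul_eq_mul, mul_one]
    ring
  have h5 : ∑ j with (∃ t, (j t : ℕ) ≠ 0), Tt j
      = ∑ j : {j : (t : Fin s) → Fin (n t) // ∃ t, (j t : ℕ) ≠ 0}, Tt j.1 :=
    sum_subtype (univ.filter fun j : (t : Fin s) → Fin (n t) => ∃ t, (j t : ℕ) ≠ 0)
      (p := fun j => ∃ t, (j t : ℕ) ≠ 0) (by intro j; simp) Tt
  refine h2.trans ?_
  rw [h3, h5, add_comm]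

end

end Pool.Agent.K9h16.LD
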