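import Pool.Agent.K9h16.LD.Op
import Pool.Agent.K9h16.LD.Pts

/-!
The final theorem: abelian coverings of the plane branched along curves
`m x + m' y + f(l x + l' y) = 0`.
-/

set_option autoImplicit false

namespace Pool.Agent.K9h16.LD

open Finset Polynomial Pool.Agent.W528.HA Pool.Agent.W528.HB Pool.Agent.W528.HC
  Pool.Agent.W528.HD Pool.Agent.W528.HF

/-- Let `N = ∏ n_t` and let `z` be a primitive `N`-th root of unity of the finite field `L`. The sum
over the points `(x, y)` of the plane `L²` of the values at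
`∏_t (∏_i F_i(x, y) ^ a_ti) ^ ((N / n_t) j_t)` of the multiplicative character
`v ↦ (μ ^ k if v ^ ((|L| - 1) / N) = z ^ k)` (`0 ↦ 0`) of `L`, where
`F_i(x, y) = m_i x + m'_i y + f_i(l_i x + l'_i y)`. -/
noncomputable def charSum (L : Type) [Field L] [Fintype L] (R : Type) [CommRing R] {s r : ℕ}
    (n : Fin s → ℕ) (m m' l l' : Fin r → L) (f : Fin r → L[X]) (a : Fin s → Fin r → ℕ) (z : L)
    (μ : R) (j : Fin s → ℕ) : R :=
  ∑ x : L, ∑ y : L, kv (∏ t, n t) z μ
    ((∏ t, (∏ i, PP m m' l l' f i x y ^ a t i) ^ ((∏ t, n t) / n t * j t))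
      ^ ((Fintype.card L - 1) / ∏ t, n t))

/-- The differences of the traces of the powers of `Φ` and `Φ'` are the sums `charSum` over the
finite extensions of `κ`. -/
def HasCharTrace (κ : Type) [Field κ] [Fintype κ] {E : Type} [Field E] {s r : ℕ}
    (n : Fin s → ℕ) (m m' l l' : Fin r → κ) (f : Fin r → κ[X]) (a : Fin s → Fin r → ℕ)
    (z : κ) (μ : E) (j : Fin s → ℕ) {W W' : Type} [AddCommGroup W]
    [Module E W] (Φ : Module.End E W) [AddCommGroup W'] [Module E W'] (Φ' : Module.End E W') :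
    Prop :=
  ∀ (L : Type) [Field L] [Fintype L] [Algebra κ L],
    LinearMap.trace E W (Φ ^ Module.finrank κ L) - LinearMap.trace E W' (Φ' ^ Module.finrank κ L)
      = charSum L E n (fun i => algebraMap κ L (m i)) (fun i => algebraMap κ L (m' i))
        (fun i => algebraMap κ L (l i)) (fun i => algebraMap κ L (l' i))
        (fun i => (f i).map (algebraMap κ L)) a (algebraMap κ L z) μ j

/-- The number of points over `L` of the surface `w_t ^ n_t = ∏_i F_i(x, y) ^ a_ti`
(`t = 1, ..., s`) in the affine space with coordinates `x, y, w_1, ..., w_s`, where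
`F_i(x, y) = m_i x + m'_i y + f_i(l_i x + l'_i y)`. -/
noncomputable def coverPoints (L : Type) [Field L] {s r : ℕ} (n : Fin s → ℕ)
    (m m' l l' : Fin r → L) (f : Fin r → L[X]) (a : Fin s → Fin r → ℕ) : ℕ :=
  Set.ncard {v : L × L × (Fin s → L) |
    ∀ t, v.2.2 t ^ n t = ∏ i, PP m m' l l' f i v.1 v.2.1 ^ a t i}

lemma charSum_eq {L : Type} [Field L] [Fintype L] {R : Type} [CommRing R] {s r : ℕ}
    (n : Fin s → ℕ) (m m' l l' : Fin r → L) (f : Fin r → L[X]) (a : Fin s → Fin r → ℕ) (z : L)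
    (μ : R) (j : Fin s → ℕ) :
    charSum L R n m m' l l' f a z μ j
      = cvSum L R (∏ t, n t) m m' l l' f (fun i => EE n j (fun t => a t i)) z μ := by
  unfold charSum cvSum
  refine sum_congr rfl fun x _ => sum_congr rfl fun y _ => ?_
  congr 2
  unfold EE
  have h : ∀ t, (∏ i, PP m m' l l' f i x y ^ a t i) ^ ((∏ t, n t) / n t * j t)
      = ∏ i, PP m m' l l' f i x y ^ ((∏ t, n t) / n t * (j t * a t i)) := by
    intro t
    rw [← prod_pow]
    refine prod_congr rfl fun i _ => ?_
    rw [← pow_mul]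
    congr 1
    ring
  rw [prod_congr rfl fun t _ => h t, prod_comm]
  exact prod_congr rfl fun i _ => (prod_pow_eq_pow_sum _ _ _)

section tr

variable {E : Type} [Field E] {G : Type} [Group G] {V : Type} [AddCommGroup V] [Module E V]
    [FiniteDimensional E V] (ρ : Representation E G V) {X : Type} [Fintype X] [DecidableEq X]
    (W : X → Submodule E V)

/-- the trace of a power is the sum of the traces on the parts -/
lemma trace_parts (hW : DirectSum.IsInternal W) (hstab : ∀ χ g, ∀ v ∈ W χ, ρ g v ∈ W χ) (φ : G)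
    (k : ℕ) :
    LinearMap.trace E V ((ρ φ) ^ k)
      = ∑ χ, LinearMap.trace E (W χ) (((ρ φ).restrict (hstab χ φ)) ^ k) := by
  have hmaps : ∀ (k : ℕ) χ, Set.MapsTo (ρ φ ^ k) (W χ) (W χ) := by
    intro k χ
    induction k with
    | zero => intro v hv; simpa using hv
    | succ k ih =>
      intro v hv
      rw [pow_succ, Module.End.mul_apply]
      exact ih (hstab χ φ v hv)
  rw [LinearMap.trace_eq_sum_trace_restrict hW (hmaps k)]
  refine sum_congr rfl fun χ _ => ?_
  congr 1
  ext v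
  have h2 : ∀ (k : ℕ) (v : W χ),
      ((((ρ φ).restrict (hstab χ φ)) ^ k) v : V) = (ρ φ ^ k) (v : V) := by
    intro k
    induction k with
    | zero => intro v; rfl
    | succ k ih =>
      intro v
      rw [pow_succ, Module.End.mul_apply, ih, pow_succ, Module.End.mul_apply]
      rfl
  rw [h2]
  rfl

end tr

theorem fin_ld {s r : ℕ} (hs : 0 < s) (n : Fin s → ℕ) (hn : ∀ t, 2 ≤ n t)
    (hco : Pairwise (Function.onFun Nat.Coprime n)) (P : Fin s → ℕ) (hP1 : ∀ t, 0 < P t)
    (hP : ∀ t (q : ℕ), q.Prime → q ∣ n t → P t ≤ q)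
    (c : ℕ) [Fact c.Prime] (hc : ∏ t, n t ∣ c - 1)
    (κ : Type) [Field κ] [Fintype κ] [CharP κ c]
    (z : κ) (hz : IsPrimitiveRoot z (∏ t, n t)) (E : Type) [Field E] [CharZero E] [IsAlgClosed E]
    (μ : E) (hμ : IsPrimitiveRoot μ (∏ t, n t))
    (m m' l l' : Fin r → κ) (f : Fin r → κ[X]) (D : ℕ) (d : Fin r → ℕ)
    (hf : ∀ i, (f i).natDegree ≤ d i) (hd : ∀ i, d i ≤ D) (a : Fin s → Fin r → ℕ)
    (ha : ((D : ℚ) + 1) * ∑ t, (∑ i, (max 1 (d i) : ℕ) * (a t i : ℚ)) / P t < 1)
    {G : Type} [Group G] {V : Type} [AddCommGroup V] [Module E V] [FiniteDimensional E V]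
    (ρ : Representation E G V)
    (W : {j : (t : Fin s) → Fin (n t) // ∃ t, (j t : ℕ) ≠ 0} → Submodule E V)
    (hW : DirectSum.IsInternal W) (hstab : ∀ χ g, ∀ v ∈ W χ, ρ g v ∈ W χ)
    {V' : Type} [AddCommGroup V'] [Module E V'] [FiniteDimensional E V']
    (ρ' : Representation E G V')
    (W' : {j : (t : Fin s) → Fin (n t) // ∃ t, (j t : ℕ) ≠ 0} → Submodule E V')
    (hW' : DirectSum.IsInternal W') (hstab' : ∀ χ g, ∀ v ∈ W' χ, ρ' g v ∈ W' χ)
    (φ : G) (hφ : ∀ χ, HasCharTrace κ n m m' l l' f a z μ (fun t => (χ.1 t : ℕ))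
      ((ρ φ).restrict (hstab χ φ)) ((ρ' φ).restrict (hstab' χ φ)))
    (hV' : ∀ M : ℕ, 0 < M → ∀ v : V', ρ' (φ ^ M) v = (Fintype.card κ : E) ^ M • v → v = 0) :
    (∀ (L : Type) [Field L] [Fintype L] [Algebra κ L],
      LinearMap.trace E V ((ρ φ) ^ Module.finrank κ L)
          - LinearMap.trace E V' ((ρ' φ) ^ Module.finrank κ L)
        = (coverPoints L n (fun i => algebraMap κ L (m i)) (fun i => algebraMap κ L (m' i))
            (fun i => algebraMap κ L (l i)) (fun i => algebraMap κ L (l' i))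
            (fun i => (f i).map (algebraMap κ L)) a : E)
          - (Fintype.card L : E) ^ 2) ∧
    ∀ (ε : G →* E), ε φ = Fintype.card κ → ∀ (H : Subgroup G), H.FiniteIndex → ∀ v : V,
      (∀ g ∈ H, ρ g v = ε g • v) → v = 0 := by
  classical
  have hcp : c.Prime := Fact.out
  obtain ⟨F, hF0, hF⟩ := FiniteField.card κ c
  have hN := pos_N hn
  have hN2 : 2 ≤ ∏ t, n t := by
    have t0 : Fin s := ⟨0, hs⟩
    exact le_trans (hn t0) (Nat.le_of_dvd hN (dvd_prod_of_mem n (mem_univ t0)))
  refine ⟨?_, ?_⟩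
  · intro L _ _ _
    have hzL : IsPrimitiveRoot (algebraMap κ L z) (∏ t, n t) :=
      hz.map_of_injective (algebraMap κ L).injective
    have hpt := ncard_cov (L := L) hs hn hzL hμ
      (fun t x y => ∏ i, PP (fun i => algebraMap κ L (m i)) (fun i => algebraMap κ L (m' i))
            (fun i => algebraMap κ L (l i)) (fun i => algebraMap κ L (l' i))
            (fun i => (f i).map (algebraMap κ L)) i x y ^ a t i)
    unfold coverPoints
    rw [hpt, add_sub_cancel_left, trace_parts ρ W hW hstab φ, trace_parts ρ' W' hW' hstab' φ,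
      ← sum_sub_distrib]
    exact sum_congr rfl fun χ _ => hφ χ L
  · intro ε hε H hH v hv
    refine decomp ρ W hW hstab φ (Fintype.card κ : E) ?_ ε hε H hH v hv
    intro χ M hM w hw
    obtain ⟨j', g, hj', hg, hle⟩ := conj hn hco P hP (fun t => (χ.1 t : ℕ))
    refine cv_op (c := c) hN2 hc κ hF hz hμ m m' l l' f hf hd
      (fun i => EE n (fun t => (χ.1 t : ℕ)) (fun t => a t i)) ?_ hj' ?_
      ((ρ φ).restrict (hstab χ φ)) ((ρ' φ).restrict (hstab' χ φ)) ?_ ?_ M hM w hw
    · intro i hi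
      refine EE_zero hn hco _ _ (fun t => (χ.1 t).2) (fun t => ?_) hi
      rcases Nat.eq_zero_or_pos (a t i) with h0 | h0
      · exact Or.inl h0
      · right
        refine coprime_of_primes h0 fun q hq hqn => ?_
        exact lt_of_lt_of_le (small P hP1 D d a ha t i) (hP t q hq hqn)
    · exact ineq hn P hP1 D d a ha g hg _ (fun i => hle (fun t => a t i))
    · intro L _ _ _
      rw [hφ χ L, charSum_eq]
    · intro M' hM' v' hv'
      have h2 : ∀ (k : ℕ) (v : W' χ),
          ((((ρ' φ).restrict (hstab' χ φ)) ^ k) v : V') = (ρ' φ ^ k) (v : V') := by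
        intro k
        induction k with
        | zero => intro v; rfl
        | succ k ih =>
          intro v
          rw [pow_succ, Module.End.mul_apply, ih, pow_succ, Module.End.mul_apply]
          rfl
      have h3 := hV' M' hM' (v' : V') (by
        rw [map_pow, ← h2, hv']
        rfl)
      exact Subtype.ext h3

end Pool.Agent.K9h16.LD
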