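import Pool.Agent.K9h16.LD.Est
import Pool.Agent.K9h16.VT.Vir

/-!
The sums over the plane and the operators.
-/

set_option autoImplicit false

namespace Pool.Agent.K9h16.LD

open Finset Polynomial Pool.Agent.W528.HA Pool.Agent.W528.HB Pool.Agent.W528.HD
open Pool.Agent.K9h16.TG

/-- The sum over `(x, y) ∈ L²` of the value at `∏ F_i(x, y) ^ e_i`,
`F_i(x, y) = m_i x + m'_i y + f_i(l_i x + l'_i y)`, of the character of order `N` of `L` belonging
to `z ↦ μ`. -/
noncomputable def cvSum (L : Type) [Field L] [Fintype L] (R : Type) [CommRing R] {I : Type}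
    [Fintype I] (N : ℕ) (m m' l l' : I → L) (f : I → L[X]) (e : I → ℕ) (z : L) (μ : R) : R :=
  ∑ x : L, ∑ y : L,
    kv N z μ ((∏ i, PP m m' l l' f i x y ^ e i) ^ ((Fintype.card L - 1) / N))

lemma map_cvSum {L : Type} [Field L] [Fintype L] {R R' : Type} [CommRing R] [CommRing R']
    {I : Type} [Fintype I] (φ : R →+* R') (N : ℕ) (m m' l l' : I → L) (f : I → L[X])
    (e : I → ℕ) (z : L) (μ : R) :
    φ (cvSum L R N m m' l l' f e z μ) = cvSum L R' N m m' l l' f e z (φ μ) := by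
  unfold cvSum
  rw [map_sum]
  refine sum_congr rfl fun x _ => ?_
  rw [map_sum]
  exact sum_congr rfl fun t _ => map_kv φ N z μ _

lemma fac {L : Type} [Field L] [Fintype L] {R : Type} [CommRing R] (T : MulChar L R) {N : ℕ}
    (hT : T ^ N = 1) {j a : ℕ} (hj : j.Coprime N) (ha : a ≠ 0 → ¬ N ∣ a) (y : L) :
    T (y ^ a) ^ j = if a = 0 then 1 else (T ^ ((j * a) % N)) y := by
  by_cases ha0 : a = 0
  · rw [if_pos ha0, ha0, pow_zero, map_one, one_pow]
  · rw [if_neg ha0]
    have hb : (j * a) % N ≠ 0 := by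
      intro h
      have h1 : N ∣ j * a := Nat.dvd_of_mod_eq_zero h
      exact ha ha0 ((Nat.Coprime.symm hj).dvd_of_dvd_mul_left h1)
    rw [MulChar.pow_apply' _ hb, map_pow, ← pow_mul, mul_comm a j]
    by_cases hy : y = 0
    · have hj0 : j * a ≠ 0 := by
        intro h
        apply hb
        rw [h, Nat.zero_mod]
      rw [hy, MulChar.map_zero, zero_pow hb, zero_pow hj0]
    · exact pow_mod_char T hT _ hy

theorem cvSum_eq {N : ℕ} (hN : 2 ≤ N) (L : Type) [Field L] [Fintype L] {R : Type} [CommRing R]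
    (T : MulChar L R) (hT : T ^ N = 1) {z : L} {ω : R}
    (hTz : ∀ (b : ℕ) (y : L), 1 ≤ b → T y ^ b = kv N z (ω ^ b) (y ^ ((Fintype.card L - 1) / N)))
    {I : Type} [Fintype I] (m m' l l' : I → L) (f : I → L[X])
    (e : I → ℕ) (he : ∀ i, e i ≠ 0 → ¬ N ∣ e i) {j : ℕ} (hj : j.Coprime N) :
    cvSum L R N m m' l l' f e z (ω ^ j)
      = ∑ x : L, ∑ y : L, ∏ i : {i : I // e i ≠ 0}, (T ^ ((j * e i.1) % N))
            (PP (fun i : {i : I // e i ≠ 0} => m i.1) (fun i => m' i.1) (fun i => l i.1)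
              (fun i => l' i.1) (fun i => f i.1) i x y) := by
  classical
  have hj1 : 1 ≤ j := by
    rcases Nat.eq_zero_or_pos j with h | h
    · rw [h, Nat.coprime_zero_left] at hj
      omega
    · exact h
  unfold cvSum
  refine sum_congr rfl fun x _ => sum_congr rfl fun t _ => ?_
  rw [← hTz j _ hj1, map_prod, ← prod_pow]
  rw [prod_congr rfl fun i _ => fac T hT hj (he i) (PP m m' l l' f i x t)]
  rw [prod_ite, prod_const_one, one_mul]
  exact prod_subtype (univ.filter fun i : I => ¬ e i = 0)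
      (p := fun i => e i ≠ 0)
      (by intro i; simp) (fun i => (T ^ ((j * e i) % N)) (PP m m' l l' f i x t))

section

variable {c : ℕ} [Fact c.Prime]

theorem cv_est {k : Type} [Field k] [CharP k c] {R : Subring (PadicAlgCl c)} {res : R →+* k}
    (hR : IsRes c R res) {N : ℕ} (hN : 2 ≤ N) {F : ℕ} (hF0 : 0 < F) (hc : N ∣ c - 1)
    (L : Type) [Field L] [Fintype L] [CharP L c] (hcard : Fintype.card L = c ^ F)
    (eL : L →+* k) {z : L} (hz : IsPrimitiveRoot z N) {Ω : PadicAlgCl c}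
    (hΩ : IsPrimitiveRoot Ω N) (hΩz : ∃ h : Ω ∈ R, res ⟨Ω, h⟩ = eL z)
    {D : ℕ} {I : Type} [Fintype I] (m m' l l' : I → L) (f : I → L[X]) {d : I → ℕ}
    (hf : ∀ i, (f i).natDegree ≤ d i) (hd : ∀ i, d i ≤ D)
    (e : I → ℕ) (he : ∀ i, e i ≠ 0 → ¬ N ∣ e i) {j : ℕ} (hj : j.Coprime N)
    (h1 : (D + 1) * ∑ i, max 1 (d i) * ((j * e i) % N) < N) :
    ‖cvSum L (PadicAlgCl c) N m m' l l' f e z (Ω ^ j)‖
      ≤ ‖((Fintype.card L : ℕ) : PadicAlgCl c)‖ ^ 2 := by
  classical
  have hAY : AY := Pool.Agent.W271.HB.AY.main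
  have hGO : GO := Pool.Agent.W540.HB.GO.main
  have hTT : TT := Pool.Agent.W400.HB.TT.main
  have hcp : c.Prime := Fact.out
  have hc1 : 1 ≤ c := hcp.one_lt.le
  have hq2 := Fintype.one_lt_card (α := L)
  have hNc : N ∣ c ^ F - 1 := hc.trans (Nat.sub_one_dvd_pow_sub_one c F)
  have hNk : (N : k) ≠ 0 := natCast_ne_zero_of_dvd hNc hF0
  obtain ⟨w, hw⟩ := hTT c k R res hR L eL
  obtain ⟨⟨ψ, hψ⟩, hprop⟩ := hAY c L
  obtain ⟨hψ1, hψ2⟩ := hprop ψ hψ
  have hgo := hGO c k R res hR L eL w hw ψ hψ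
  have hd' := dvd_card_of_root hz (by omega)
  have hTz := fun (b : ℕ) (y : L) (hb : 1 ≤ b) =>
    kvT hw (by omega) hNk hz hΩ.pow_eq_one hΩz b y hb
  have hTN : (w ^ ((Fintype.card L - 1) / N)) ^ N = 1 := T_pow_card w hd'
  have hinj : Function.Injective w := by
    intro y y' hyy
    obtain ⟨a1, a2⟩ := hw y
    obtain ⟨a3, a4⟩ := hw y'
    apply eL.injective
    rw [← a2, ← a4]
    congr 1
    exact Subtype.ext hyy
  have hD : Dat w ψ F := ⟨hinj, hψ1, hψ2, hgo, hcard, hF0⟩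
  rw [cvSum_eq hN L (w ^ ((Fintype.card L - 1) / N)) hTN hTz m m' l l' f e he hj]
  have hsub : ∑ i : {i : I // e i ≠ 0}, max 1 (d i.1) * ((j * e i.1) % N)
      ≤ ∑ i, max 1 (d i) * ((j * e i) % N) := by
    rw [← sum_subtype (univ.filter fun i => e i ≠ 0) (p := fun i => e i ≠ 0) (by intro i; simp)
      (fun i => max 1 (d i) * ((j * e i) % N))]
    exact sum_le_sum_of_subset (filter_subset _ _)
  have h2 := est hD hc hc1 hd' (by omega) (fun i : {i : I // e i ≠ 0} => (j * e i.1) % N)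
    (fun i => Nat.mod_lt _ (by omega)) (fun i => by
      rw [Nat.pos_iff_ne_zero]
      intro h
      have e1 : N ∣ j * e i.1 := Nat.dvd_of_mod_eq_zero h
      exact he i.1 i.2 ((Nat.Coprime.symm hj).dvd_of_dvd_mul_left e1))
    (fun i => hd i.1) (lt_of_le_of_lt (Nat.mul_le_mul_left _ hsub) h1)
    (fun i => m i.1) (fun i => m' i.1) (fun i => l i.1) (fun i => l' i.1) (fun i => f i.1)
    (fun i => hf i.1)
  refine le_trans (le_of_eq ?_) h2
  congr 1
  refine sum_congr rfl fun x _ => sum_congr rfl fun y _ => prod_congr rfl fun i _ => ?_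
  rw [← pow_mul, mul_comm ((Fintype.card L - 1) / N)]

/-- Two operators with the differences of traces `cvSum`: if the second one has no eigenvalue `|κ|`
times a root of unity, then neither has the first one. -/
theorem cv_op {N : ℕ} (hN : 2 ≤ N) (hc : N ∣ c - 1)
    (κ : Type) [Field κ] [Fintype κ] [CharP κ c] {F : ℕ} (hF : Fintype.card κ = c ^ F)
    {z : κ} (hz : IsPrimitiveRoot z N) {E' : Type} [Field E'] [CharZero E'] [IsAlgClosed E']
    {μ : E'} (hμ : IsPrimitiveRoot μ N)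
    {D : ℕ} {I : Type} [Fintype I] (m m' l l' : I → κ) (f : I → κ[X]) {d : I → ℕ}
    (hf : ∀ i, (f i).natDegree ≤ d i) (hd : ∀ i, d i ≤ D)
    (e : I → ℕ) (he : ∀ i, e i ≠ 0 → ¬ N ∣ e i) {j : ℕ} (hj : j.Coprime N)
    (h1 : (D + 1) * ∑ i, max 1 (d i) * ((j * e i) % N) < N)
    {V V' : Type} [AddCommGroup V] [Module E' V] [FiniteDimensional E' V]
    [AddCommGroup V'] [Module E' V'] [FiniteDimensional E' V']
    (Φ : Module.End E' V) (Φ' : Module.End E' V')
    (hΦ : ∀ (L : Type) [Field L] [Fintype L] [Algebra κ L],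
      LinearMap.trace E' V (Φ ^ Module.finrank κ L)
        - LinearMap.trace E' V' (Φ' ^ Module.finrank κ L)
        = cvSum L E' N (fun i => algebraMap κ L (m i)) (fun i => algebraMap κ L (m' i))
          (fun i => algebraMap κ L (l i)) (fun i => algebraMap κ L (l' i))
          (fun i => (f i).map (algebraMap κ L)) e (algebraMap κ L z) μ)
    (h' : ∀ M : ℕ, 0 < M → ∀ v : V', (Φ' ^ M) v = (Fintype.card κ : E') ^ M • v → v = 0)
    (M : ℕ) (hM : 0 < M) (v : V) (hv : (Φ ^ M) v = (Fintype.card κ : E') ^ M • v) : v = 0 := by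
  classical
  have hF0 : 0 < F := by
    rcases Nat.eq_zero_or_pos F with h | h
    · rw [h, pow_zero] at hF
      have := Fintype.one_lt_card (α := κ)
      omega
    · exact h
  refine Pool.Agent.K9h16.VT.vir_op hN κ hF 1 one_pos hj hz hμ
    (fun L _ _ _ R _ ω => cvSum L R N (fun i => algebraMap κ L (m i))
      (fun i => algebraMap κ L (m' i))
      (fun i => algebraMap κ L (l i)) (fun i => algebraMap κ L (l' i))
      (fun i => (f i).map (algebraMap κ L)) e (algebraMap κ L z) ω)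
    (fun L _ _ _ R R' _ _ φ y => map_cvSum φ N _ _ _ _ _ e _ y) ?_ Φ Φ' hΦ h' M hM v hv
  intro k _ _ R res hR n hn L _ _ _ _ hcard eL Ω hΩ hΩz
  have h3 := cv_est hR hN (Nat.mul_pos hF0 hn) hc L hcard eL
    (hz.map_of_injective (algebraMap κ L).injective) hΩ hΩz
    (fun i => algebraMap κ L (m i)) (fun i => algebraMap κ L (m' i))
    (fun i => algebraMap κ L (l i)) (fun i => algebraMap κ L (l' i))
    (fun i => (f i).map (algebraMap κ L)) (fun i => (natDegree_map_le).trans (hf i)) hd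
    e he hj h1
  have hρ1 : ‖((c : ℕ) : PadicAlgCl c)‖ ≤ 1 := norm_natCast_le c
  have hρ0 : 0 ≤ ‖((c : ℕ) : PadicAlgCl c)‖ := norm_nonneg _
  have hcn : ‖((Fintype.card L : ℕ) : PadicAlgCl c)‖ = ‖((c : ℕ) : PadicAlgCl c)‖ ^ (F * n) := by
    rw [hcard]
    push_cast
    rw [norm_pow]
  rw [pow_one]
  refine h3.trans ?_
  rw [hcn, ← pow_mul, mul_one, pow_one, ← pow_add]
  apply pow_le_pow_of_le_one hρ0 hρ1
  have : n ≤ F * n := Nat.le_mul_of_pos_left _ hF0
  omega

end

end Pool.Agent.K9h16.LD
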